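import Mathlib

/-!
# Integers of `ℚ` as a number field (helper376)
-/

set_option autoImplicit false
set_option linter.all false

open NumberField

namespace Pool.Agent.U376.RF

/-- the integers -/
noncomputable def eZ : ℤ ≃+* 𝓞 ℚ := Rat.ringOfIntegersEquiv.symm

theorem eZ_coe (n : ℤ) : ((eZ n : 𝓞 ℚ) : ℚ) = n := by
  have h : (eZ n : 𝓞 ℚ) = (n : 𝓞 ℚ) := by
    rw [← map_intCast (eZ : ℤ ≃+* 𝓞 ℚ) n, Int.cast_id]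
  rw [h]
  push_cast
  rfl

theorem emb_eZ (σ : ℚ →+* ℂ) (n : ℤ) : σ ((eZ n : 𝓞 ℚ) : ℚ) = n := by
  rw [eZ_coe, map_intCast]

theorem prime_iff (𝔭 : Ideal (𝓞 ℚ)) (hp : 𝔭.IsPrime) (h0 : 𝔭 ≠ ⊥) :
    ∃ p : ℕ, p.Prime ∧ ∀ (k : ℕ) (n : ℤ), eZ n ∈ 𝔭 ^ k ↔ (p : ℤ) ^ k ∣ n := by
  obtain ⟨𝔮, h𝔮⟩ : ∃ 𝔮 : Ideal ℤ, 𝔮 = 𝔭.comap (eZ : ℤ ≃+* 𝓞 ℚ) := ⟨_, rfl⟩
  have hmap : 𝔮.map (eZ : ℤ ≃+* 𝓞 ℚ) = 𝔭 := by
    rw [h𝔮]
    exact Ideal.map_comap_of_surjective _ eZ.surjective _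
  have hq : 𝔮.IsPrime := by
    rw [h𝔮]
    exact Ideal.comap_isPrime _ _
  have hq0 : 𝔮 ≠ ⊥ := by
    intro h
    apply h0
    rw [← hmap, h, Ideal.map_bot]
  obtain ⟨g, hg⟩ := (IsPrincipalIdealRing.principal 𝔮).principal
  have hg' : 𝔮 = Ideal.span {g} := hg
  have hgp : Prime g := by
    rw [hg'] at hq hq0
    refine (Ideal.span_singleton_prime ?_).1 hq
    intro h
    apply hq0
    rw [h, Ideal.span_singleton_eq_bot]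
  refine ⟨g.natAbs, Int.prime_iff_natAbs_prime.1 hgp, fun k n => ?_⟩
  rw [← hmap, ← Ideal.map_pow, hg', Ideal.span_singleton_pow, Ideal.map_span,
    Set.image_singleton, Ideal.mem_span_singleton]
  have e1 : (eZ : ℤ ≃+* 𝓞 ℚ) (g ^ k) ∣ (eZ : ℤ ≃+* 𝓞 ℚ) n ↔ g ^ k ∣ n := map_dvd_iff eZ
  refine e1.trans ?_
  rw [← Int.natAbs_dvd, Int.natAbs_pow]
  push_cast
  rfl

theorem prime_over (p : ℕ) (hp : p.Prime) : ∃ 𝔭 : Ideal (𝓞 ℚ), 𝔭.IsPrime ∧ 𝔭 ≠ ⊥ ∧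
    ∀ (k : ℕ) (n : ℤ), (p : ℤ) ^ k ∣ n → eZ n ∈ 𝔭 ^ k := by
  have h1 : (Ideal.span {(p : ℤ)}).IsPrime := by
    rw [Ideal.span_singleton_prime (by exact_mod_cast hp.ne_zero)]
    exact Nat.prime_iff_prime_int.1 hp
  refine ⟨(Ideal.span {(p : ℤ)}).map (eZ : ℤ ≃+* 𝓞 ℚ), Ideal.map_isPrime_of_equiv _, ?_, ?_⟩
  · intro h
    rw [Ideal.map_eq_bot_iff_of_injective eZ.injective, Ideal.span_singleton_eq_bot] at h
    exact hp.ne_zero (by exact_mod_cast h)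
  · intro k n hn
    rw [← Ideal.map_pow, Ideal.span_singleton_pow, Ideal.map_span, Set.image_singleton,
      Ideal.mem_span_singleton]
    exact map_dvd eZ hn

end Pool.Agent.U376.RF
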