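import Pool.Agent.N783.CF.CntS

/-!
# Counting fields with an additional condition on the polynomial (helper376, after `N783/CF/CntS.lean`)
-/

set_option autoImplicit false
set_option linter.all false

open Polynomial NumberField Matrix
open scoped Classical

namespace Pool.Agent.U376.RF

open Pool.Agent.N352.PJ (dd)
open Pool.Agent.N783.PF
open Pool.Agent.N783.CF
open Pool.Agent.N99.PF (ht_card good_card)

variable {F : Type} [Field F] [NumberField F]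

/-- Many polynomials with the property `E`. -/
def FamE (g : ℕ) (E : (𝓞 F)[X] → Prop) : Prop :=
  ∃ c : ℝ, 0 < c ∧ ∃ B₀ : ℕ, ∀ B ≥ B₀, {f : (𝓞 F)[X] | Ht g B f}.Finite ∧
    c * (B : ℝ) ^ (Module.finrank ℚ F * dd g) ≤
    ({f : (𝓞 F)[X] | Ht g B f ∧ Irreducible (fF f) ∧ SqF g f ∧ Two g f ∧ E f}.ncard : ℝ)

/-- The polynomials which are used. -/
def ManyE (g : ℕ) (E : (𝓞 F)[X] → Prop) : Prop :=
  ∃ δ : ℝ, 0 < δ ∧ ∃ c : ℝ, 0 < c ∧ ∃ B₀ : ℕ, ∀ B ≥ B₀,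
    {f : (𝓞 F)[X] | Gd g B δ f ∧ E f}.Finite ∧
    c * (B : ℝ) ^ (Module.finrank ℚ F * dd g) ≤
      ({f : (𝓞 F)[X] | Gd g B δ f ∧ E f}.ncard : ℝ)

/-- The fields which are counted. -/
def FldsE (g : ℕ) (E : (𝓞 F)[X] → Prop) (X : ℝ) :
    Set (IntermediateField F (AlgebraicClosure F)) :=
  {L | L ∈ Fields F (2 * g + 1) X ∧ ∃ (_ : NumberField L) (f : (𝓞 F)[X]) (θ : L), IsGen g f θ ∧
    Irreducible (fF f) ∧ SqF g f ∧ Two g f ∧ NUnit g f ∧ E f}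

/-- The counting, in terms of the height. -/
def Cn1E (g : ℕ) (E : (𝓞 F)[X] → Prop) : Prop :=
  ∃ c : ℝ, 0 < c ∧ ∃ C : ℝ, 1 ≤ C ∧ ∃ B₀ : ℕ, ∀ B ≥ B₀,
    c * (B : ℝ) ^ (Module.finrank ℚ F * dd g) ≤
      ((FldsE g E (C * (B : ℝ) ^ (Module.finrank ℚ F * (2 * g * (2 * g + 1))))).ncard : ℝ)

/-- The counting. -/
def CntE (g : ℕ) (E : (𝓞 F)[X] → Prop) : Prop :=
  ∃ c : ℝ, 0 < c ∧ ∃ X₀ : ℝ, ∀ X : ℝ, X₀ ≤ X → (Fields F (2 * g + 1) X).Finite ∧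
    c * X ^ ((1 : ℝ) / 2 + 1 / ((2 * g + 1 : ℕ) : ℝ)) ≤ ((FldsE g E X).ncard : ℝ)

theorem manyE {g : ℕ} {E : (𝓞 F)[X] → Prop} (hg : 1 ≤ g) (hFEW : S_FEW) (hFAMQ : FamE g E) :
    ManyE g E := by
  obtain ⟨c, hc, B₀, hB₀⟩ := hFAMQ
  obtain ⟨δ, hδ, B₁, hB₁⟩ := hFEW g F hg (c / 2) (by positivity)
  refine ⟨δ, hδ, c / 2, by positivity, max B₀ B₁, fun B hB => ?_⟩
  obtain ⟨hfin, hge⟩ := hB₀ B ((le_max_left _ _).trans hB)
  obtain ⟨hfin2, hle⟩ := hB₁ B ((le_max_right _ _).trans hB)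
  have hG : {f : (𝓞 F)[X] | Gd g B δ f ∧ E f}.Finite := hfin.subset (fun f hf => hf.1.ht)
  refine ⟨hG, ?_⟩
  set S1 : Set (𝓞 F)[X] :=
    {f : (𝓞 F)[X] | Ht g B f ∧ Irreducible (fF f) ∧ SqF g f ∧ Two g f ∧ E f}
  set S2 : Set (𝓞 F)[X] := {f : (𝓞 F)[X] | Ht g B f ∧ ¬ Big g B δ f}
  have h1 : S1 \ S2 ⊆ {f : (𝓞 F)[X] | Gd g B δ f ∧ E f} := by
    rintro f ⟨⟨h1, h2, h3, h4, h6⟩, h5⟩
    refine ⟨⟨h1, h2, h3, h4, ?_⟩, h6⟩
    by_contra hb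
    exact h5 ⟨h1, hb⟩
  have h2 : S1.ncard ≤ (S1 \ S2).ncard + S2.ncard := Set.ncard_le_ncard_sdiff_add_ncard S1 S2 hfin2
  have h3 : (S1 \ S2).ncard ≤ {f : (𝓞 F)[X] | Gd g B δ f ∧ E f}.ncard :=
    Set.ncard_le_ncard h1 hG
  have h4 : (S1.ncard : ℝ) ≤ ({f : (𝓞 F)[X] | Gd g B δ f ∧ E f}.ncard : ℝ) +
      (S2.ncard : ℝ) := by
    exact_mod_cast h2.trans (Nat.add_le_add_right h3 _)
  have h5 : c * (B : ℝ) ^ (Module.finrank ℚ F * dd g) =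
      c / 2 * (B : ℝ) ^ (Module.finrank ℚ F * dd g) +
      c / 2 * (B : ℝ) ^ (Module.finrank ℚ F * dd g) := by ring
  linarith

theorem cn1E {g : ℕ} {E : (𝓞 F)[X] → Prop} (hg : 1 ≤ g) (hMANY : ManyE g E) (hFIB : S_FIB)
    (hUNI : S_UNI) (hDB : S_DB) (hADJ : S_ADJ) (hNUN : S_NUN) (hFINF : S_FINF)
    (hPTS : Pool.Agent.N783.PF.S_PTS) : Cn1E g E := by
  obtain ⟨δ, hδ, c, hc, B₀, hM⟩ := hMANY
  obtain ⟨C₁, B₁, hF⟩ := hFIB g F hg δ hδ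
  obtain ⟨CD, hCD, hD⟩ := hDB g F hg
  obtain ⟨B₂, hN⟩ := hNUN g F hg δ hδ
  obtain ⟨-, CP, hCP, -, hP⟩ := hPTS F
  have hPf : {a : 𝓞 F | Bd (a : F) C₁}.Finite := by
    refine ((hP ⊤ 0 (max C₁ 0) top_ne_bot (le_max_right _ _)).1).subset ?_
    intro a ha
    exact ⟨Submodule.mem_top, fun σ => (ha σ).trans (le_max_left _ _)⟩
  obtain ⟨M, hMd⟩ : ∃ M : ℕ, M = max hPf.toFinset.card 1 := ⟨_, rfl⟩
  have hM1 : 1 ≤ M := by rw [hMd]; exact le_max_right _ _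
  have hMr : (0 : ℝ) < M := by exact_mod_cast hM1
  refine ⟨c / M, by positivity, max CD 1, le_max_right _ _, max (max B₀ B₁) (max B₂ 1), ?_⟩
  intro B hB
  have hB0 : B₀ ≤ B := (le_max_left _ _).trans ((le_max_left _ _).trans hB)
  have hB1 : B₁ ≤ B := (le_max_right _ _).trans ((le_max_left _ _).trans hB)
  have hB2 : B₂ ≤ B := (le_max_left _ _).trans ((le_max_right _ _).trans hB)
  have hB3 : 1 ≤ B := (le_max_right _ _).trans ((le_max_right _ _).trans hB)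
  have hB3r : (1 : ℝ) ≤ B := by exact_mod_cast hB3
  obtain ⟨hG, hGc⟩ := hM B hB0
  obtain ⟨X, hX⟩ : ∃ X : ℝ, X = max CD 1 * (B : ℝ) ^ (Module.finrank ℚ F * (2 * g * (2 * g + 1))) :=
    ⟨_, rfl⟩
  have hX1 : 1 ≤ X := by
    rw [hX]
    exact one_le_mul_of_one_le_of_one_le (le_max_right _ _) (one_le_pow₀ hB3r)
  have hXD : CD * (B : ℝ) ^ (Module.finrank ℚ F * (2 * g * (2 * g + 1))) ≤ X := by
    rw [hX]
    exact mul_le_mul_of_nonneg_right (le_max_left _ _) (by positivity)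
  rw [← hX]
  have hfin : (FldsE g E X).Finite :=
    (hFINF F (2 * g + 1) X (by omega) hX1).subset fun L hL => hL.1
  have hch : ∀ f ∈ {f : (𝓞 F)[X] | Gd g B δ f ∧ E f},
      ∃ (L : IntermediateField F (AlgebraicClosure F)), ∃ (_ : NumberField L) (θ : L),
        IsGen g f θ := fun f hf => hADJ g F f hf.1.ht.mon hf.1.ht.deg hf.1.irr
  choose! Lf hLf using hch
  -- the fields are counted
  have hmem : ∀ f ∈ hG.toFinset, Lf f ∈ hfin.toFinset := by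
    intro f hf
    have hf'' : Gd g B δ f ∧ E f := hG.mem_toFinset.1 hf
    have hf' : Gd g B δ f := hf''.1
    obtain ⟨hn, θ, hgen⟩ := hLf f hf''
    refine hfin.mem_toFinset.2 ⟨⟨hgen.rank, hn, ?_⟩, hn, f, θ, hgen, hf'.irr, hf'.sqf, hf'.two, ?_,
      hf''.2⟩
    · exact (hD B (Lf f) f θ hB3 hgen hf'.ht).trans hXD
    · exact hN B hB2 f hf'.big hf'.irr hf'.ht.mon hf'.ht.deg
  -- the fibres
  have hfib : ∀ L ∈ hG.toFinset.image Lf, (hG.toFinset.filter fun f => Lf f = L).card ≤ M := by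
    intro L hL
    obtain ⟨f₀, hf₀, hfL⟩ := Finset.mem_image.1 hL
    have hf₀'' : Gd g B δ f₀ ∧ E f₀ := hG.mem_toFinset.1 hf₀
    have hf₀' : Gd g B δ f₀ := hf₀''.1
    have h0 : ∃ (_ : NumberField L) (θ : L), IsGen g f₀ θ := hfL ▸ hLf f₀ hf₀''
    obtain ⟨hn, θ, hgen⟩ := h0
    have hsub : (hG.toFinset.filter fun f => Lf f = L) ⊆
        hPf.toFinset.image (fun a => f₀.scaleRoots a) := by
      intro f hf
      obtain ⟨hf1, hf2⟩ := Finset.mem_filter.1 hf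
      have hf1'' : Gd g B δ f ∧ E f := hG.mem_toFinset.1 hf1
      have hf1' : Gd g B δ f := hf1''.1
      have h1 : ∃ (_ : NumberField L) (θ : L), IsGen g f θ := hf2 ▸ hLf f hf1''
      obtain ⟨hn', θ', hgen'⟩ := h1
      obtain ⟨a, ha, hθ⟩ := hF B hB1 L f₀ f θ θ' hgen hgen' hf₀'.ht hf₀'.sqf hf₀'.big hf1'.ht
      exact Finset.mem_image.2 ⟨a, hPf.mem_toFinset.2 ha,
        (hUNI g F L f₀ f θ θ' a hgen hgen' hθ).symm⟩
    calc (hG.toFinset.filter fun f => Lf f = L).card ≤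
        (hPf.toFinset.image (fun a => f₀.scaleRoots a)).card := Finset.card_le_card hsub
      _ ≤ hPf.toFinset.card := Finset.card_image_le
      _ ≤ M := by rw [hMd]; exact le_max_left _ _
  have hcard : hG.toFinset.card ≤ M * hfin.toFinset.card := by
    refine (Finset.card_le_mul_card_image _ M hfib).trans ?_
    refine Nat.mul_le_mul_left _ (Finset.card_le_card ?_)
    intro L hL
    obtain ⟨f, hf, rfl⟩ := Finset.mem_image.1 hL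
    exact hmem f hf
  rw [Set.ncard_eq_toFinset_card _ hG] at hGc
  rw [Set.ncard_eq_toFinset_card _ hfin]
  have hcardr : (hG.toFinset.card : ℝ) ≤ M * (hfin.toFinset.card : ℝ) := by exact_mod_cast hcard
  rw [div_mul_eq_mul_div, div_le_iff₀ hMr]
  linarith

theorem cntE {g : ℕ} {E : (𝓞 F)[X] → Prop} (hg : 1 ≤ g) (h1 : Cn1E g E) (h2 : S_FINF) :
    CntE g E := by
  obtain ⟨c, hc, C, hC, B₀, hB⟩ := h1
  have hd : 1 ≤ Module.finrank ℚ F := Module.finrank_pos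
  have hfin : ∀ Y : ℝ, 1 ≤ Y → (FldsE g E Y).Finite := by
    intro Y hY
    refine (h2 F (2 * g + 1) Y (by omega) hY).subset ?_
    intro L hL
    exact hL.1
  have hmono : ∀ X Y : ℝ, 1 ≤ Y → X ≤ Y →
      ((FldsE g E X).ncard : ℝ) ≤ ((FldsE g E Y).ncard : ℝ) := by
    intro X Y hY hXY
    have : (FldsE g E X).ncard ≤ (FldsE g E Y).ncard := by
      refine Set.ncard_le_ncard ?_ (hfin Y hY)
      rintro L ⟨⟨k1, hn, k2⟩, k3⟩
      exact ⟨⟨k1, hn, k2.trans hXY⟩, k3⟩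
    exact_mod_cast this
  have he : 1 ≤ Module.finrank ℚ F * (2 * g * (2 * g + 1)) :=
    Nat.mul_pos hd (by positivity)
  obtain ⟨c', hc', X₀, hX₀, hX⟩ := Pool.Agent.N654.CF.real_part
    (Module.finrank ℚ F * Pool.Agent.N352.PJ.dd g)
    (Module.finrank ℚ F * (2 * g * (2 * g + 1))) he c C hc hC B₀
    (fun X => ((FldsE g E X).ncard : ℝ)) hmono hB
  refine ⟨c', hc', X₀, ?_⟩
  intro X hXX
  refine ⟨h2 F (2 * g + 1) X (by omega) (hX₀.trans hXX), ?_⟩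
  have hexp : ((Module.finrank ℚ F * Pool.Agent.N352.PJ.dd g : ℕ) : ℝ) /
      ((Module.finrank ℚ F * (2 * g * (2 * g + 1)) : ℕ) : ℝ) =
      (1 : ℝ) / 2 + 1 / ((2 * g + 1 : ℕ) : ℝ) := by
    have hd0 : (0 : ℝ) < Module.finrank ℚ F := by exact_mod_cast hd
    have hg0 : (0 : ℝ) < g := by exact_mod_cast hg
    unfold Pool.Agent.N352.PJ.dd
    push_cast
    field_simp
    ring
  have h3 := hX X hXX
  rw [hexp] at h3
  exact h3

end Pool.Agent.U376.RF
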