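import Mathlib

/-!
# Weak approximation at the infinite places, in terms of the complex embeddings (helper376)
-/

set_option autoImplicit false
set_option linter.all false

open NumberField

namespace Pool.Agent.U376.RF

theorem dense_emb {F : Type} [Field F] [NumberField F] (a : (F →+* ℂ) → ℂ)
    (ha : ∀ σ : F →+* ℂ, a (ComplexEmbedding.conjugate σ) = (starRingEnd ℂ) (a σ)) {δ : ℝ}
    (hδ : 0 < δ) : ∃ x : F, ∀ σ : F →+* ℂ, ‖σ x - a σ‖ < δ := by
  have hc : ∀ v : InfinitePlace F, ∃ c : v.Completion,
      InfinitePlace.Completion.extensionEmbedding v c = a v.embedding := by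
    intro v
    rcases v.isReal_or_isComplex with hv | hv
    · have h1 : ComplexEmbedding.conjugate v.embedding = v.embedding :=
        ComplexEmbedding.isReal_iff.1 (InfinitePlace.isReal_iff.1 hv)
      have h2 := ha v.embedding
      rw [h1] at h2
      obtain ⟨r, hr⟩ := Complex.conj_eq_iff_real.1 h2.symm
      obtain ⟨c, hc⟩ := InfinitePlace.Completion.surjective_extensionEmbeddingOfIsReal hv r
      refine ⟨c, ?_⟩
      rw [← InfinitePlace.Completion.extensionEmbeddingOfIsReal_apply hv, hc, hr]
    · exact InfinitePlace.Completion.surjective_extensionEmbedding_of_isComplex hv _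
  choose c hc using hc
  have hopen : IsOpen (Set.pi Set.univ fun v : InfinitePlace F => Metric.ball (c v) δ) :=
    isOpen_set_pi Set.finite_univ fun v _ => Metric.isOpen_ball
  obtain ⟨x, hx⟩ := (InfiniteAdeleRing.denseRange_algebraMap F).exists_mem_open hopen
    ⟨c, fun v _ => Metric.mem_ball_self hδ⟩
  have hv : ∀ v : InfinitePlace F, ‖v.embedding x - a v.embedding‖ < δ := by
    intro v
    have h1 : dist ((algebraMap F (InfiniteAdeleRing F) x) v) (c v) < δ := hx v (Set.mem_univ v)
    rw [← (InfinitePlace.Completion.isometry_extensionEmbedding v).dist_eq, hc, dist_eq_norm] at h1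
    have h2 : InfinitePlace.Completion.extensionEmbedding v
        ((algebraMap F (InfiniteAdeleRing F) x) v) = v.embedding x := by
      exact InfinitePlace.Completion.extensionEmbedding_coe v ((WithAbs.equiv v.1).symm x)
    rw [h2] at h1
    exact h1
  refine ⟨x, fun σ => ?_⟩
  have h1 := hv (InfinitePlace.mk σ)
  rcases InfinitePlace.embedding_mk_eq σ with h2 | h2
  · rw [h2] at h1
    exact h1
  · rw [h2, ha, ComplexEmbedding.conjugate_coe_eq, ← map_sub, RCLike.norm_conj] at h1
    exact h1

end Pool.Agent.U376.RF
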