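import Pool.Agent.N710.PF.Exs

/-!
# Sets of primes which are `1` modulo `N` (helper376, after `N710/PF/Exs.lean`)
-/

set_option autoImplicit false
set_option linter.all false

open Polynomial NumberField
open scoped Classical

namespace Pool.Agent.U376.RF

open Pool.Agent.N783.PF

/-- arbitrarily many primes which are `1` modulo `8` and modulo `N` and larger than `M` -/
theorem exists_primesN (N M r : ℕ) (hN : 0 < N) :
    ∃ S : Finset ℕ, S.card = r ∧ ∀ q ∈ S, q.Prime ∧ M < q ∧ q % 8 = 1 ∧ q ≡ 1 [MOD N] := by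
  classical
  induction r with
  | zero => exact ⟨∅, rfl, by simp⟩
  | succ r ih =>
    obtain ⟨S, hS, hS2⟩ := ih
    obtain ⟨q, hq1, hq2, hq3⟩ := Nat.exists_prime_gt_modEq_one (k := 8 * N) (M + ∑ i ∈ S, i)
      (by omega)
    have h8 : q % 8 = 1 := by
      have h : q ≡ 1 [MOD 8] := hq3.of_dvd (dvd_mul_right _ _)
      simpa [Nat.ModEq] using h
    have hqS : q ∉ S := by
      intro h
      have := Finset.single_le_sum (f := fun i : ℕ => i) (fun i _ => Nat.zero_le i) h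
      omega
    refine ⟨insert q S, by rw [Finset.card_insert_of_notMem hqS, hS], fun i hi => ?_⟩
    rw [Finset.mem_insert] at hi
    rcases hi with rfl | hi
    · exact ⟨hq1, by omega, h8, hq3.of_dvd (dvd_mul_left _ _)⟩
    · exact hS2 i hi

/-- the sets of primes -/
theorem exsN (F : Type) [Field F] [NumberField F] (g W N : ℕ) (hg : 1 ≤ g) (hN : 0 < N) (m : ℕ) :
    ∃ (S : Finset ℕ) (𝔮 : ℕ → Ideal (𝓞 F)) (h P : ℕ → (𝓞 F)[X]),
      GoodS g W S 𝔮 h P ∧ S.card = m ∧ ∀ q ∈ S, q ≡ 1 [MOD N] := by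
  obtain ⟨S, hS, hS2⟩ := exists_primesN N (W + (2 * g + 1) + (discr F).natAbs) m hN
  have hdata : ∀ q : ℕ, ∃ (𝔮 : Ideal (𝓞 F)) (h A : (𝓞 F)[X]), q ∈ S →
    (∀ 𝔭 : Ideal (𝓞 F), 𝔭.IsPrime → (q : 𝓞 F) ∉ 𝔭 ^ 2) ∧
    𝔮.IsPrime ∧ (q : 𝓞 F) ∈ 𝔮 ∧
    h.Monic ∧ h.natDegree = 2 * g ∧ Irreducible (rd 𝔮 h) ∧
    A.Monic ∧ A.natDegree = 2 * g + 1 ∧ A.coeff (2 * g) = 0 ∧
    Cg 𝔮 A (X * h) ∧
    ∀ 𝔭 : Ideal (𝓞 F), 𝔭.IsPrime → (q : 𝓞 F) ∈ 𝔭 → 𝔭 ≠ 𝔮 → Irreducible (rd 𝔭 A) := by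
    intro q
    by_cases hq : q ∈ S
    · obtain ⟨h1, h2, h3, h4⟩ := hS2 q hq
      obtain ⟨𝔮, h, A, hh⟩ := Pool.Agent.N710.PF.exists_data F g q hg h1 (by omega) (by omega)
      exact ⟨𝔮, h, A, fun _ => hh⟩
    · exact ⟨⊥, 0, 0, fun h => absurd h hq⟩
  choose 𝔮 h A hh using hdata
  refine ⟨S, 𝔮, h, A, fun q hq => ?_, hS, fun q hq => (hS2 q hq).2.2.2⟩
  obtain ⟨h1, h2, h3, h4⟩ := hS2 q hq
  exact ⟨h1, by omega, by omega, h3, hh q hq⟩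

end Pool.Agent.U376.RF
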