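import Pool.Agent.N352.PF.Cnt
import Pool.Agent.N951.PF.Fam

/-!
# The conditions at the small prime ideals, with a given residue class modulo `N` (helper376)
-/

set_option autoImplicit false
set_option linter.all false

open Polynomial NumberField IsDedekindDomain

namespace Pool.Agent.U376.RF

open Pool.Agent.N352.PF

variable {F : Type} [Field F] [NumberField F]

/-- CRT for two coprime natural numbers -/
theorem crt2 {R : Type} [CommRing R] {x y : ℕ} (h : Nat.Coprime x y) (a b : R) :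
    ∃ r : R, (x : R) ∣ r - a ∧ (y : R) ∣ r - b := by
  obtain ⟨u, v, huv0⟩ := (Nat.isCoprime_iff_coprime.2 h)
  have huv : (u : R) * (x : R) + (v : R) * (y : R) = 1 := by
    have := congrArg (Int.cast : ℤ → R) huv0
    push_cast at this ⊢
    exact this
  refine ⟨b * (u * x) + a * (v * y), ⟨b * u - a * u, ?_⟩, ⟨a * v - b * v, ?_⟩⟩
  · linear_combination a * huv
  · linear_combination b * huv

/-- The conditions at the small primes which do not divide `N₂`, with a given residue class modulo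
`N₁`. -/
theorem gfN (hGF : S_GF) (g M N₁ N₂ : ℕ) (hg : 1 ≤ g) (hN : 0 < N₁) (hN2 : ¬ 2 ∣ N₂)
    (hcop12 : Nat.Coprime N₁ N₂) (f₀ : (𝓞 F)[X])
    (hm : f₀.Monic) (hd : f₀.natDegree = 2 * g + 1) (ht : f₀.coeff (2 * g) = 0)
    (hirr : ∀ v : HeightOneSpectrum (𝓞 F), (N₁ : 𝓞 F) ∈ v.asIdeal → (2 : 𝓞 F) ∈ v.asIdeal →
      Irreducible (rv v f₀))
    (hsep : ∀ v : HeightOneSpectrum (𝓞 F), (N₁ : 𝓞 F) ∈ v.asIdeal → (rv v f₀).Separable) :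
    ∃ (W : ℕ) (f₁ : (𝓞 F)[X]), f₁.Monic ∧ f₁.natDegree = 2 * g + 1 ∧ f₁.coeff (2 * g) = 0 ∧
      0 < W ∧ 2 ∣ W ∧
      (∀ v : HeightOneSpectrum (𝓞 F), (2 : 𝓞 F) ∈ v.asIdeal → Irreducible (rv v f₁)) ∧
      (∀ v : HeightOneSpectrum (𝓞 F), (W : 𝓞 F) ∈ v.asIdeal → (rv v f₁).Separable) ∧
      (∀ p : ℕ, p.Prime → p ≤ M → ¬ p ∣ N₂ → p ∣ W) ∧ N₁ ∣ W ∧ Nat.Coprime W N₂ ∧
      ∀ j, (N₁ : 𝓞 F) ∣ f₁.coeff j - f₀.coeff j := by
  classical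
  obtain ⟨W', f', hm', hd', ht', hW', h2', hirr', hsep', hp'⟩ := hGF F g (max M 2) hg
  obtain ⟨P, hP⟩ : ∃ P : ℕ, P = ∏ p ∈ (Finset.range (max M 2 + 1)).filter
      (fun p : ℕ => p.Prime ∧ ¬ p ∣ N₁ * N₂), p := ⟨_, rfl⟩
  have hmem : ∀ p : ℕ, p ∈ (Finset.range (max M 2 + 1)).filter
      (fun p : ℕ => p.Prime ∧ ¬ p ∣ N₁ * N₂) ↔ p ≤ max M 2 ∧ p.Prime ∧ ¬ p ∣ N₁ * N₂ := by
    intro p
    rw [Finset.mem_filter, Finset.mem_range, Nat.lt_succ_iff]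
  have hP0 : 0 < P := by
    rw [hP]
    exact Finset.prod_pos fun p hp => ((hmem p).1 hp).2.1.pos
  have hcop0 : Nat.Coprime (N₁ * N₂) P := by
    rw [hP]
    refine Nat.Coprime.prod_right fun p hp => ?_
    obtain ⟨-, h1, h2⟩ := (hmem p).1 hp
    exact (Nat.coprime_comm.1 ((Nat.Prime.coprime_iff_not_dvd h1).2 h2))
  have hcop : Nat.Coprime N₁ P := hcop0.coprime_mul_right
  have hcopb : Nat.Coprime N₂ P := hcop0.coprime_mul_left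
  have hPp : ∀ p : ℕ, p.Prime → p ∣ P → p ≤ max M 2 := by
    intro p hp hpd
    rw [hP] at hpd
    obtain ⟨q, hq, hpq⟩ := (Prime.dvd_finset_prod_iff hp.prime _).1 hpd
    obtain ⟨h1, h2, h3⟩ := (hmem q).1 hq
    rw [(Nat.prime_dvd_prime_iff_eq hp h2).1 hpq]
    exact h1
  have hcrt : ∀ j : ℕ, ∃ r : 𝓞 F, (N₁ : 𝓞 F) ∣ r - f₀.coeff j ∧ (P : 𝓞 F) ∣ r - f'.coeff j :=
    fun j => crt2 hcop _ _
  choose a ha1 ha2 using hcrt
  obtain ⟨f₁, hf₁⟩ : ∃ f₁ : (𝓞 F)[X],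
      f₁ = Pool.Agent.N352.PJ.pol (fun j : Fin (2 * g) => a j) := ⟨_, rfl⟩
  have hdvd : ∀ (m : ℕ) (f : (𝓞 F)[X]), f.Monic → f.natDegree = 2 * g + 1 →
      f.coeff (2 * g) = 0 → (∀ j : Fin (2 * g), (m : 𝓞 F) ∣ a j - f.coeff j) →
      ∀ j, (m : 𝓞 F) ∣ f₁.coeff j - f.coeff j := by
    intro m f e1 e2 e3 e4 j
    rw [hf₁, ← Ideal.mem_span_singleton]
    exact Pool.Agent.N951.PF.cg_pol (fun j : Fin (2 * g) => a j) e1 e2 e3
      (Ideal.span {(m : 𝓞 F)}) (fun j => Ideal.mem_span_singleton.2 (e4 j)) j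
  have hN1 := hdvd N₁ f₀ hm hd ht fun j => ha1 j
  have hP1 := hdvd P f' hm' hd' ht' fun j => ha2 j
  have hrv : ∀ (v : HeightOneSpectrum (𝓞 F)) (m : ℕ) (f : (𝓞 F)[X]), (m : 𝓞 F) ∈ v.asIdeal →
      (∀ j, (m : 𝓞 F) ∣ f₁.coeff j - f.coeff j) → rv v f₁ = rv v f := by
    intro v m f h1 h2
    ext j
    rw [coeff_map, coeff_map, Ideal.Quotient.eq]
    exact Ideal.mem_of_dvd _ (h2 j) h1
  have hPW' : ∀ v : HeightOneSpectrum (𝓞 F), (P : 𝓞 F) ∈ v.asIdeal → (W' : 𝓞 F) ∈ v.asIdeal := by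
    intro v hv
    obtain ⟨p, hp1, hp2, hp3⟩ := Pool.Agent.N951.PF.prime_factor v.asIdeal v.isPrime P hP0 hv
    obtain ⟨m, hm⟩ := hp' p hp1 (hPp p hp1 hp2)
    rw [hm, Nat.cast_mul]
    exact Ideal.mul_mem_right _ _ hp3
  have hNP : ∀ p : ℕ, p.Prime → p ≤ max M 2 → ¬ p ∣ N₂ → p ∣ N₁ * P := by
    intro p hp hpM hpN
    by_cases h : p ∣ N₁
    · exact h.mul_right _
    · refine Dvd.dvd.mul_left ?_ _
      rw [hP]
      refine Finset.dvd_prod_of_mem (fun p => p) ((hmem p).2 ⟨hpM, hp, fun hh => ?_⟩)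
      rcases (Nat.Prime.dvd_mul hp).1 hh with h1 | h1
      · exact h h1
      · exact hpN h1
  have hcase : ∀ v : HeightOneSpectrum (𝓞 F), ((N₁ * P : ℕ) : 𝓞 F) ∈ v.asIdeal →
      ((N₁ : 𝓞 F) ∈ v.asIdeal ∧ rv v f₁ = rv v f₀) ∨
        ((P : 𝓞 F) ∈ v.asIdeal ∧ (W' : 𝓞 F) ∈ v.asIdeal ∧ rv v f₁ = rv v f') := by
    intro v hv
    rw [Nat.cast_mul] at hv
    rcases v.isPrime.mem_or_mem hv with h | h
    · exact Or.inl ⟨h, hrv v N₁ f₀ h hN1⟩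
    · exact Or.inr ⟨h, hPW' v h, hrv v P f' h hP1⟩
  have h2NP : 2 ∣ N₁ * P := hNP 2 Nat.prime_two (le_max_right _ _) hN2
  refine ⟨N₁ * P, f₁, ?_, ?_, ?_, Nat.mul_pos hN hP0, h2NP, ?_, ?_,
    fun p hp hpM => hNP p hp (hpM.trans (le_max_left _ _)), dvd_mul_right _ _,
    Nat.Coprime.mul_left hcop12 hcopb.symm, hN1⟩
  · rw [hf₁]; exact Pool.Agent.N951.PF.pol_monic _
  · rw [hf₁]; exact Pool.Agent.N951.PF.pol_natDegree _
  · rw [hf₁]; exact Pool.Agent.N951.PF.pol_coeff_tr _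
  · intro v hv
    have hv' : ((N₁ * P : ℕ) : 𝓞 F) ∈ v.asIdeal := by
      obtain ⟨m, hm⟩ := h2NP
      rw [hm, Nat.cast_mul, Nat.cast_ofNat]
      exact Ideal.mul_mem_right _ _ hv
    rcases hcase v hv' with ⟨h1, h2⟩ | ⟨h1, h2, h3⟩
    · rw [h2]
      exact hirr v h1 hv
    · rw [h3]
      exact hirr' v hv
  · intro v hv
    rcases hcase v hv with ⟨h1, h2⟩ | ⟨h1, h2, h3⟩
    · rw [h2]
      exact hsep v h1
    · rw [h3]
      exact hsep' v h2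

end Pool.Agent.U376.RF
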