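import Pool.Agent.N352.PF.SML

/-!
# Integers of a number field in a part of the box and in a residue class (helper376)
-/

set_option autoImplicit false
set_option linter.all false

open Polynomial NumberField IsDedekindDomain Filter
open scoped Classical

namespace Pool.Agent.U376.RF

open Pool.Agent.N352.PF
open Pool.Agent.N352.PJ (dd pol dis Dy D2)

section

variable {F : Type} [Field F] [NumberField F]

/-- The part of the box: `a j` is near `z j * k ^ (2 g + 1 - j)`, with given residues modulo `m`. -/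
def Vx (g k m : ℕ) (ε : ℝ) (z A : Fin (2 * g) → 𝓞 F) : Set (Fin (2 * g) → 𝓞 F) :=
  {a | ∀ j : Fin (2 * g), (a j - z j * (k : 𝓞 F) ^ (2 * g + 1 - (j : ℕ)) ∈
    Bal F ⌊ε * (k : ℝ) ^ (2 * g + 1 - (j : ℕ))⌋₊) ∧ (m : 𝓞 F) ∣ a j - A j}

theorem bal_fin (h : S_CU) (T : ℕ) : (Bal F T).Finite := by
  obtain ⟨C, hC⟩ := h F
  have h1 : (Bal F (T + 1)).Finite := by
    have := (hC (T + 1) ⊤ 0 (by omega) top_ne_bot).1
    convert this using 1
    ext x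
    simp
  refine h1.subset fun x hx σ => (hx σ).trans ?_
  push_cast
  linarith

theorem vx_card (h : S_CU) {CL : ℕ} (hCL1 : 1 ≤ CL) (hCL : ∀ (T W : ℕ) (A : 𝓞 F),
    0 < W → CL * W ≤ T → T ^ dg F ≤ CL * {x ∈ Bal F T | (W : 𝓞 F) ∣ x - A}.ncard * W ^ dg F)
    {g k m : ℕ} {ε : ℝ} (hε : 0 < ε) (hm : 0 < m) (hk : 1 ≤ k) (hk2 : 2 * (CL * m + 1) ≤ ε * k)
    (z A : Fin (2 * g) → 𝓞 F) :
    (Vx g k m ε z A).Finite ∧
    ((ε / 2) ^ (2 * g * dg F) * (k : ℝ) ^ (dg F * dd g)) ≤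
      (CL : ℝ) ^ (2 * g) * (Vx g k m ε z A).ncard * (m : ℝ) ^ (2 * g * dg F) := by
  have hk1 : (1 : ℝ) ≤ k := by exact_mod_cast hk
  obtain ⟨T, hT⟩ : ∃ T : Fin (2 * g) → ℕ, T = fun j : Fin (2 * g) => ⌊ε * (k : ℝ) ^ (2 * g + 1 - (j : ℕ))⌋₊ :=
    ⟨_, rfl⟩
  -- the sides
  have hside : ∀ j : Fin (2 * g), ε / 2 * (k : ℝ) ^ (2 * g + 1 - (j : ℕ)) ≤ T j ∧
      CL * m ≤ T j := by
    intro j
    have e1 : (k : ℝ) ≤ (k : ℝ) ^ (2 * g + 1 - (j : ℕ)) :=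
      le_self_pow₀ hk1 (by have := j.2; omega)
    have e2 : 2 * ((CL : ℝ) * m + 1) ≤ ε * (k : ℝ) ^ (2 * g + 1 - (j : ℕ)) :=
      hk2.trans (mul_le_mul_of_nonneg_left e1 hε.le)
    have e3 : ε * (k : ℝ) ^ (2 * g + 1 - (j : ℕ)) < T j + 1 := by
      rw [hT]
      exact Nat.lt_floor_add_one _
    have e4 : (0 : ℝ) ≤ (CL : ℝ) * m := by positivity
    constructor
    · linarith
    · have : ((CL * m : ℕ) : ℝ) ≤ T j := by
        push_cast
        linarith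
      exact_mod_cast this
  have hSf : ∀ j : Fin (2 * g), ((fun y : 𝓞 F => y + z j * (k : 𝓞 F) ^ (2 * g + 1 - (j : ℕ))) ''
      {y ∈ Bal F (T j) | (m : 𝓞 F) ∣ y - (A j - z j * (k : 𝓞 F) ^ (2 * g + 1 - (j : ℕ)))}).Finite :=
    fun j => ((bal_fin h (T j)).subset fun y hy => hy.1).image _
  obtain ⟨S, hS⟩ : ∃ S : Fin (2 * g) → Finset (𝓞 F), S = fun j => (hSf j).toFinset := ⟨_, rfl⟩
  have hmemS : ∀ (j : Fin (2 * g)) (x : 𝓞 F), x ∈ S j ↔
      (x - z j * (k : 𝓞 F) ^ (2 * g + 1 - (j : ℕ)) ∈ Bal F (T j)) ∧ (m : 𝓞 F) ∣ x - A j := by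
    intro j x
    rw [hS]
    rw [Set.Finite.mem_toFinset, Set.mem_image]
    constructor
    · rintro ⟨y, ⟨h1, h2⟩, rfl⟩
      rw [add_sub_cancel_right]
      refine ⟨h1, ?_⟩
      have e : y + z j * (k : 𝓞 F) ^ (2 * g + 1 - (j : ℕ)) - A j =
          y - (A j - z j * (k : 𝓞 F) ^ (2 * g + 1 - (j : ℕ))) := by ring
      rw [e]
      exact h2
    · rintro ⟨h1, h2⟩
      refine ⟨x - z j * (k : 𝓞 F) ^ (2 * g + 1 - (j : ℕ)), ⟨h1, ?_⟩, sub_add_cancel _ _⟩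
      have e : x - z j * (k : 𝓞 F) ^ (2 * g + 1 - (j : ℕ)) -
          (A j - z j * (k : 𝓞 F) ^ (2 * g + 1 - (j : ℕ))) = x - A j := by ring
      rw [e]
      exact h2
  have hset : Vx g k m ε z A = ↑(Fintype.piFinset S) := by
    ext a
    rw [Finset.mem_coe, Fintype.mem_piFinset]
    unfold Vx
    rw [Set.mem_setOf_eq]
    refine forall_congr' fun j => ?_
    rw [hmemS, hT]
  have hcard : ∀ j, ((T j : ℕ) : ℝ) ^ dg F ≤ CL * ((S j).card : ℝ) * (m : ℝ) ^ dg F := by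
    intro j
    have h1 := hCL (T j) m (A j - z j * (k : 𝓞 F) ^ (2 * g + 1 - (j : ℕ))) hm (hside j).2
    have h2 : (S j).card =
        {y ∈ Bal F (T j) | (m : 𝓞 F) ∣ y - (A j - z j * (k : 𝓞 F) ^ (2 * g + 1 - (j : ℕ)))}.ncard := by
      rw [hS]
      rw [← Set.ncard_eq_toFinset_card _ (hSf j)]
      exact Set.ncard_image_of_injective _ (add_left_injective _)
    rw [h2]
    exact_mod_cast h1
  constructor
  · rw [hset]
    exact Finset.finite_toSet _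
  · rw [hset, Set.ncard_coe_finset, Fintype.card_piFinset]
    push_cast
    calc (ε / 2) ^ (2 * g * dg F) * (k : ℝ) ^ (dg F * dd g)
        = ∏ j : Fin (2 * g), (ε / 2 * (k : ℝ) ^ (2 * g + 1 - (j : ℕ))) ^ dg F := by
          rw [Finset.prod_pow, Finset.prod_mul_distrib, Finset.prod_const, Finset.card_univ,
            Fintype.card_fin, Finset.prod_pow_eq_pow_sum, SML99.sum_dd, mul_pow, ← pow_mul,
            ← pow_mul, mul_comm (dd g)]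
      _ ≤ ∏ j : Fin (2 * g), ((CL : ℝ) * ((S j).card : ℝ) * (m : ℝ) ^ dg F) := by
          refine Finset.prod_le_prod (fun j _ => by positivity) fun j _ => ?_
          exact (pow_le_pow_left₀ (by positivity) (hside j).1 _).trans (hcard j)
      _ = (CL : ℝ) ^ (2 * g) * (∏ j : Fin (2 * g), ((S j).card : ℝ)) * (m : ℝ) ^ (2 * g * dg F) := by
          rw [Finset.prod_mul_distrib, Finset.prod_mul_distrib, Finset.prod_const,
            Finset.prod_const, Finset.card_univ, Fintype.card_fin, ← pow_mul, mul_comm (dg F)]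

/-- The members are in the box. -/
theorem vx_sub {g k m R B : ℕ} {ε : ℝ} (hε : 0 < ε) (z A : Fin (2 * g) → 𝓞 F) (hR : 1 ≤ R)
    (hz : ∀ (σ : F →+* ℂ) (j : Fin (2 * g)), ‖σ (z j : F)‖ + ε ≤ R) (hkB : k * R ≤ B) :
    Vx g k m ε z A ⊆ Bx g B m A := by
  intro a ha
  refine ⟨fun j σ => ?_, fun j => (ha j).2⟩
  have h1 := (ha j).1 σ
  have hR1 : (1 : ℝ) ≤ R := by exact_mod_cast hR
  have h2 : ((⌊ε * (k : ℝ) ^ (2 * g + 1 - (j : ℕ))⌋₊ : ℕ) : ℝ) ≤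
      ε * (k : ℝ) ^ (2 * g + 1 - (j : ℕ)) := Nat.floor_le (by positivity)
  have e1 : σ (a j : F) = σ ((a j - z j * (k : 𝓞 F) ^ (2 * g + 1 - (j : ℕ)) : 𝓞 F) : F) +
      σ (z j : F) * (k : ℂ) ^ (2 * g + 1 - (j : ℕ)) := by
    push_cast
    rw [map_sub, map_mul, map_pow, map_natCast]
    ring
  rw [e1]
  refine (norm_add_le _ _).trans ?_
  rw [norm_mul, norm_pow, Complex.norm_natCast]
  calc _ ≤ ε * (k : ℝ) ^ (2 * g + 1 - (j : ℕ)) +
        ‖σ (z j : F)‖ * (k : ℝ) ^ (2 * g + 1 - (j : ℕ)) := by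
        gcongr
        exact h1.trans h2
    _ = (‖σ (z j : F)‖ + ε) * (k : ℝ) ^ (2 * g + 1 - (j : ℕ)) := by ring
    _ ≤ (R : ℝ) ^ (2 * g + 1 - (j : ℕ)) * (k : ℝ) ^ (2 * g + 1 - (j : ℕ)) := by
        refine mul_le_mul_of_nonneg_right ?_ (by positivity)
        exact (hz σ j).trans (le_self_pow₀ hR1 (by have := j.2; omega))
    _ = ((k * R : ℕ) : ℝ) ^ (2 * g + 1 - (j : ℕ)) := by
        push_cast
        rw [← mul_pow, mul_comm]
    _ ≤ (B : ℝ) ^ (2 * g + 1 - (j : ℕ)) :=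
        pow_le_pow_left₀ (by positivity) (by exact_mod_cast hkB) _
    _ = ((B ^ (2 * g + 1 - (j : ℕ)) : ℕ) : ℝ) := by push_cast; rfl

end

/-- The lower bound for the number of elements of the part of the box. -/
theorem vx_low (h1 : S_CU) (h2 : S_CL) (F : Type) [Field F] [NumberField F] (g R : ℕ) (hR : 1 ≤ R)
    {ε : ℝ} (hε : 0 < ε) : ∃ c : ℝ, 0 < c ∧ ∀ m : ℕ, 0 < m → ∃ B₀ : ℕ, ∀ B ≥ B₀,
      ∀ z A : Fin (2 * g) → 𝓞 F, (Vx g (B / R) m ε z A).Finite ∧ 1 ≤ B / R ∧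
      c * (B : ℝ) ^ (dg F * dd g) ≤ (m : ℝ) ^ (2 * g * dg F) * (Vx g (B / R) m ε z A).ncard := by
  obtain ⟨CL, hCL1, hCL⟩ := h2 F
  have hCL0 : (0 : ℝ) < CL := by exact_mod_cast hCL1
  have hR0 : (0 : ℝ) < R := by exact_mod_cast hR
  refine ⟨(ε / 2) ^ (2 * g * dg F) * ((1 / (2 * R : ℝ)) ^ (dg F * dd g)) / (CL : ℝ) ^ (2 * g),
    by positivity, fun m hm => ?_⟩
  obtain ⟨k₀, hk₀⟩ := exists_nat_ge (2 * ((CL : ℝ) * m + 1) / ε)
  refine ⟨(k₀ + 1) * R, fun B hB z A => ?_⟩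
  have hkB : k₀ + 1 ≤ B / R := (Nat.le_div_iff_mul_le hR).2 hB
  have hk1 : 1 ≤ B / R := by omega
  have hk2 : 2 * ((CL : ℝ) * m + 1) ≤ ε * ((B / R : ℕ) : ℝ) := by
    rw [div_le_iff₀ hε] at hk₀
    have e1 : (k₀ : ℝ) ≤ ((B / R : ℕ) : ℝ) := by exact_mod_cast (by omega : k₀ ≤ B / R)
    nlinarith
  obtain ⟨h3, h4⟩ := vx_card h1 hCL1 hCL hε hm hk1 hk2 z A
  refine ⟨h3, hk1, ?_⟩
  have hBk : (1 / (2 * R : ℝ)) * B ≤ ((B / R : ℕ) : ℝ) := by
    have e1 : B < R * (B / R) + R := by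
      have := Nat.lt_mul_div_succ B (show 0 < R by omega)
      rw [Nat.mul_add, Nat.mul_one] at this
      exact this
    have e2 : B ≤ 2 * R * (B / R) := by
      have e3 : R * 1 ≤ R * (B / R) := Nat.mul_le_mul_left _ hk1
      nlinarith
    have e3 : (B : ℝ) ≤ 2 * R * ((B / R : ℕ) : ℝ) := by exact_mod_cast e2
    rw [one_div, inv_mul_le_iff₀ (by positivity)]
    exact e3
  rw [div_mul_eq_mul_div, div_le_iff₀ (by positivity)]
  calc (ε / 2) ^ (2 * g * dg F) * ((1 / (2 * R : ℝ)) ^ (dg F * dd g)) * (B : ℝ) ^ (dg F * dd g)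
      = (ε / 2) ^ (2 * g * dg F) * ((1 / (2 * R : ℝ)) * B) ^ (dg F * dd g) := by
        rw [mul_pow]; ring
    _ ≤ (ε / 2) ^ (2 * g * dg F) * ((B / R : ℕ) : ℝ) ^ (dg F * dd g) := by
        gcongr
    _ ≤ _ := h4
    _ = _ := by ring

end Pool.Agent.U376.RF
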