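import Pool.Agent.U376.RF.Sml
import Pool.Agent.U376.RF.Gf
import Pool.Agent.U376.RF.Low

/-!
# Many polynomials in the family with a given residue class and a given shape (helper376)

After `N951/PF/Fam.lean`.
-/

set_option autoImplicit false
set_option linter.all false

open Polynomial NumberField IsDedekindDomain
open scoped Classical

namespace Pool.Agent.U376.RF

open Pool.Agent.N352.PJ (dd pol dis Dy D2)
open Pool.Agent.N352.PF (dg Bal nv rv Bz Bx S_BX S_SML S_WK S_STR S_DSC S_GF S_PF S_CU S_CL S_LD S_PR)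
open Pool.Agent.N783.PF (Bd Cg sp rd Ht GoodS GoodF Fam S_FAM)
open Pool.Agent.N951.PF

/-- The coefficients of `f` are near to `z j * t ^ (2 g + 1 - j)` for a natural number `t > 0`. -/
def Nr {F : Type} [Field F] [NumberField F] (g : ℕ) (z : Fin (2 * g) → 𝓞 F) (ε : ℝ)
    (f : (𝓞 F)[X]) : Prop :=
  ∃ t : ℕ, 0 < t ∧ ∀ (j : Fin (2 * g)) (σ : F →+* ℂ),
    ‖σ (f.coeff (j : ℕ) : F) - σ (z j : F) * (t : ℂ) ^ (2 * g + 1 - (j : ℕ))‖ ≤
      ε * (t : ℝ) ^ (2 * g + 1 - (j : ℕ))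

/-- Congruent polynomials have congruent discriminants. -/
theorem dsc_cg {F : Type} [Field F] [NumberField F] {g : ℕ} (I : Ideal (𝓞 F)) {f f' : (𝓞 F)[X]}
    (h : ∀ j, f.coeff j - f'.coeff j ∈ I) :
    Pool.Agent.N352.PF.dsc g f - Pool.Agent.N352.PF.dsc g f' ∈ I := by
  have h1 : f.map (Ideal.Quotient.mk I) = f'.map (Ideal.Quotient.mk I) := by
    ext j
    rw [coeff_map, coeff_map, Ideal.Quotient.eq]
    exact h j
  rw [← Ideal.Quotient.eq, Pool.Agent.N352.PF.dsc, Pool.Agent.N352.PF.dsc, ← resultant_map_map,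
    ← resultant_map_map, ← derivative_map, ← derivative_map, h1]

theorem famN (h0 : S_CU) (h0' : S_CL) (hLD : S_LD) (hPR : S_PR) (h1 : S_BX) (h3 : S_WK)
    (h4 : S_STR) (h5 : S_DSC) (h6 : S_GF) (h7 : S_PF) (F : Type) [Field F] [NumberField F] (g : ℕ)
    (hg : 1 ≤ g) (K N₁ N₂ : ℕ) (hN : 0 < N₁) (hN20 : 0 < N₂) (hN2 : ¬ 2 ∣ N₂)
    (hcop12 : Nat.Coprime N₁ N₂) (f₀ : (𝓞 F)[X])
    (hm0 : f₀.Monic) (hd0 : f₀.natDegree = 2 * g + 1) (ht0 : f₀.coeff (2 * g) = 0)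
    (hirr0 : ∀ v : HeightOneSpectrum (𝓞 F), (N₁ : 𝓞 F) ∈ v.asIdeal → (2 : 𝓞 F) ∈ v.asIdeal →
      Irreducible (rv v f₀))
    (hsep0 : ∀ v : HeightOneSpectrum (𝓞 F), (N₁ : 𝓞 F) ∈ v.asIdeal → (rv v f₀).Separable)
    (hodd0 : ∀ v : HeightOneSpectrum (𝓞 F), (N₂ : 𝓞 F) ∈ v.asIdeal →
      Pool.Agent.N352.PF.dsc g f₀ ∉ v.asIdeal ∨
        ((N₂ : 𝓞 F) ∈ v.asIdeal ^ 2 ∧ Pool.Agent.N352.PF.dsc g f₀ ∉ v.asIdeal ^ 2))
    {ε : ℝ} (hε : 0 < ε) (z : Fin (2 * g) → 𝓞 F) :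
    ∃ (W : ℕ) (f₁ : (𝓞 F)[X]), K ≤ W ∧ GoodF g W f₁ ∧ N₁ ∣ W ∧
      (∀ j, (N₁ : 𝓞 F) ∣ f₁.coeff j - f₀.coeff j) ∧
      ∃ c : ℝ, 0 < c ∧ ∀ (S : Finset ℕ) (𝔮 : ℕ → Ideal (𝓞 F)) (h P : ℕ → (𝓞 F)[X]),
      GoodS g W S 𝔮 h P → (∀ q ∈ S, ¬ q ∣ N₂) → ∃ B₀ : ℕ, ∀ B ≥ B₀,
      c * (B : ℝ) ^ (Module.finrank ℚ F * dd g) ≤
        (((∏ q ∈ S, q ^ (2 * g)) ^ Module.finrank ℚ F : ℕ) : ℝ) *
        ({f : (𝓞 F)[X] | Fam g B W f₁ S P f ∧ Nr g z ε f ∧
          ∀ j, (N₂ : 𝓞 F) ∣ f.coeff j - f₀.coeff j}.ncard : ℝ) := by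
  -- the size of the shape
  obtain ⟨R, hR1, hzR⟩ : ∃ R : ℕ, 1 ≤ R ∧ ∀ (σ : F →+* ℂ) (j : Fin (2 * g)),
      ‖σ (z j : F)‖ + ε ≤ R := by
    obtain ⟨R, hR⟩ := exists_nat_ge (∑ σ : F →+* ℂ, ∑ j : Fin (2 * g), ‖σ (z j : F)‖ + ε)
    refine ⟨R + 1, by omega, fun σ j => ?_⟩
    have e1 : ‖σ (z j : F)‖ ≤ ∑ j : Fin (2 * g), ‖σ (z j : F)‖ :=
      Finset.single_le_sum (f := fun j : Fin (2 * g) => ‖σ (z j : F)‖)
        (fun _ _ => norm_nonneg _) (Finset.mem_univ j)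
    have e2 : ∑ j : Fin (2 * g), ‖σ (z j : F)‖ ≤
        ∑ σ : F →+* ℂ, ∑ j : Fin (2 * g), ‖σ (z j : F)‖ :=
      Finset.single_le_sum (f := fun σ : F →+* ℂ => ∑ j : Fin (2 * g), ‖σ (z j : F)‖)
        (fun _ _ => Finset.sum_nonneg fun _ _ => norm_nonneg _) (Finset.mem_univ σ)
    push_cast
    linarith
  obtain ⟨cV, hcV, hlow⟩ := vx_low h0 h0' F g R hR1 hε
  obtain ⟨C₁, hC₁, hBX⟩ := h1 F g
  have hC0 : (0 : ℝ) < C₁ := by exact_mod_cast hC₁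
  obtain ⟨M, hM⟩ := smlK h0 hLD hPR h7 F g hg hC₁ hBX (k := cV / (4 * C₁)) (by positivity)
  obtain ⟨p₀, hp₀K, hp₀⟩ := Nat.exists_infinite_primes (max K (N₂ + 1))
  have hp₀N : ¬ p₀ ∣ N₂ := by
    intro h
    have e1 := Nat.le_of_dvd hN20 h
    have e2 := (le_max_right K (N₂ + 1)).trans hp₀K
    omega
  obtain ⟨W, f₁, hmon, hdeg, htr, hW0, htwo, hirr, hsep, hW, hNW, hWN2, hN1⟩ :=
    gfN h6 g (max p₀ (max M (2 * g + 1))) N₁ N₂ hg hN hN2 hcop12 f₀ hm0 hd0 ht0 hirr0 hsep0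
  have hKW : K ≤ W := ((le_max_left _ _).trans hp₀K).trans
    (Nat.le_of_dvd hW0 (hW p₀ hp₀ (le_max_left _ _) hp₀N))
  have hne : ∀ (𝔭 : Ideal (𝓞 F)) (n : ℕ), 0 < n → (n : 𝓞 F) ∈ 𝔭 → 𝔭 ≠ ⊥ := by
    intro 𝔭 n hn hm h0
    rw [h0, Ideal.mem_bot] at hm
    have : n = 0 := by exact_mod_cast hm
    omega
  have hgood : GoodF g W f₁ := by
    refine ⟨hmon, hdeg, htr, hW0, htwo, ?_, ?_⟩
    · intro 𝔭 hp h2m
      have hb : 𝔭 ≠ ⊥ := hne 𝔭 2 two_pos (by exact_mod_cast h2m)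
      exact hirr ⟨𝔭, hp, hb⟩ h2m
    · intro 𝔭 hp hWm
      exact hsep ⟨𝔭, hp, hne 𝔭 W hW0 hWm⟩ hWm
  refine ⟨W, f₁, hKW, hgood, hNW, hN1, cV / (2 * ((W * N₂ : ℕ) : ℝ) ^ (2 * g * dg F)), ?_,
    fun S 𝔮 h P hS hSN => ?_⟩
  · have : 0 < W * N₂ := Nat.mul_pos hW0 hN20
    positivity
  obtain ⟨Q, hQ⟩ : ∃ Q : ℕ, Q = ∏ q ∈ S, q := ⟨_, rfl⟩
  have hQ0 : 0 < Q := by
    rw [hQ]
    exact Finset.prod_pos fun q hq => (hS q hq).1.pos
  have hWQ : 0 < W * N₂ * Q := Nat.mul_pos (Nat.mul_pos hW0 hN20) hQ0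
  -- residues
  have hcrt : ∀ j : Fin (2 * g), ∃ x : 𝓞 F, (W : 𝓞 F) ∣ x - f₁.coeff j ∧
      (N₂ : 𝓞 F) ∣ x - f₀.coeff j ∧ ∀ q ∈ S, (q : 𝓞 F) ∣ x - (P q).coeff j := by
    intro j
    obtain ⟨r, hr1, hr2⟩ := crt2 hWN2 (f₁.coeff j) (f₀.coeff j)
    obtain ⟨x, hx1, hx2⟩ := crt (W * N₂) S (fun q hq => ⟨(hS q hq).1, fun hd => by
      rcases (Nat.Prime.dvd_mul (hS q hq).1).1 hd with hd | hd
      · exact absurd (Nat.le_of_dvd hW0 hd) (by have := (hS q hq).2.1; omega)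
      · exact hSN q hq hd⟩) r (fun q => (P q).coeff j)
    refine ⟨x, ?_, ?_, hx2⟩
    · have e1 : x - f₁.coeff j = (x - r) + (r - f₁.coeff j) := by ring
      rw [e1]
      exact dvd_add (dvd_trans (by push_cast; exact dvd_mul_right _ _) hx1) hr1
    · have e1 : x - f₀.coeff j = (x - r) + (r - f₀.coeff j) := by ring
      rw [e1]
      exact dvd_add (dvd_trans (by push_cast; exact dvd_mul_left _ _) hx1) hr2
  choose A hA1 hA3 hA2 using hcrt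
  have hP0 : (0 : ℝ) < ((W * N₂ * Q : ℕ) : ℝ) ^ (2 * g * dg F) := by positivity
  obtain ⟨B₁, hB₁⟩ := h4 F g hg (cV / (4 * ((W * N₂ * Q : ℕ) : ℝ) ^ (2 * g * dg F))) (by positivity)
  obtain ⟨B₂, hB₂⟩ := hlow (W * N₂ * Q) hWQ
  refine ⟨max (max B₁ B₂) (C₁ * (W * N₂ * Q)), fun B hB => ?_⟩
  have hBB1 : B₁ ≤ B := ((le_max_left _ _).trans (le_max_left _ _)).trans hB
  have hBB2 : B₂ ≤ B := ((le_max_right _ _).trans (le_max_left _ _)).trans hB
  have hBC1 : C₁ * (W * N₂ * Q) ≤ B := (le_max_right _ _).trans hB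
  obtain ⟨hfin, hcard, hcard2⟩ := hBX B (W * N₂ * Q) A hWQ hBC1
  obtain ⟨hfin0, -, -⟩ := hBX B 1 (fun _ => 0) one_pos
    (le_trans (Nat.mul_le_mul_left C₁ hWQ) hBC1)
  have hBz : (Bz F g B).Finite := by
    refine hfin0.subset ?_
    intro a ha
    exact ⟨ha, fun j => by simp⟩
  have hsml := hM B (W * N₂ * Q) A hWQ hBC1
  have hstr := hB₁ B hBB1
  obtain ⟨hVfin, hk1, hVlow⟩ := hB₂ B hBB2 z A
  set V := Vx g (B / R) (W * N₂ * Q) ε z A with hV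
  set U := Bx g B (W * N₂ * Q) A with hU
  have hVU : V ⊆ U := vx_sub hε z A hR1 hzR (Nat.div_mul_le_self B R)
  set U1 := {a ∈ U | ∃ v : HeightOneSpectrum (𝓞 F), M < nv v ∧ nv v ^ 2 < B ^ dg F ∧
    ((W * N₂ * Q : ℕ) : 𝓞 F) ∉ v.asIdeal ∧ dis a ∈ v.asIdeal ^ 2} with hU1
  set U2 := {a ∈ Bz F g B | ∃ v : HeightOneSpectrum (𝓞 F), B ^ dg F ≤ nv v ^ 2 ∧
    dis a ∈ v.asIdeal ∧ D2 a ∈ v.asIdeal} with hU2
  have hU1f : U1.Finite := hfin.subset (Set.sep_subset _ _)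
  have hU2f : U2.Finite := hBz.subset (Set.sep_subset _ _)
  -- the good ones are in the family
  have key : pol '' (V \ (U1 ∪ U2)) ⊆ {f : (𝓞 F)[X] | Fam g B W f₁ S P f ∧ Nr g z ε f ∧
      ∀ j, (N₂ : 𝓞 F) ∣ f.coeff j - f₀.coeff j} := by
    rintro _ ⟨a, ⟨haV, ha⟩, rfl⟩
    have haU : a ∈ U := hVU haV
    have hnear : Nr g z ε (pol a) := by
      refine ⟨B / R, hk1, fun j σ => ?_⟩
      rw [pol_coeff_lt]
      have e1 := (haV j).1 σ
      have e2 : ((⌊ε * ((B / R : ℕ) : ℝ) ^ (2 * g + 1 - (j : ℕ))⌋₊ : ℕ) : ℝ) ≤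
          ε * ((B / R : ℕ) : ℝ) ^ (2 * g + 1 - (j : ℕ)) := Nat.floor_le (by positivity)
      have e3 : σ (a j : F) - σ (z j : F) * ((B / R : ℕ) : ℂ) ^ (2 * g + 1 - (j : ℕ)) =
          σ ((a j - z j * ((B / R : ℕ) : 𝓞 F) ^ (2 * g + 1 - (j : ℕ)) : 𝓞 F) : F) := by
        push_cast
        rw [map_sub, map_mul, map_pow, map_natCast]
      rw [e3]
      exact e1.trans e2
    have haB : a ∈ Bz F g B := haU.1
    have haR : ∀ j, ((W * N₂ * Q : ℕ) : 𝓞 F) ∣ a j - A j := haU.2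
    have hone : Cg (sp F W) (pol a) f₁ := by
      apply cg_pol a hmon hdeg htr
      intro j
      rw [Ideal.mem_span_singleton]
      have e1 : (W : 𝓞 F) ∣ a j - A j := dvd_trans (by push_cast; exact Dvd.dvd.mul_right (dvd_mul_right _ _) _) (haR j)
      have e2 : a j - f₁.coeff j = (a j - A j) + (A j - f₁.coeff j) := by ring
      rw [e2]
      exact dvd_add e1 (hA1 j)
    have hcon : ∀ q ∈ S, Cg (sp F q) (pol a) (P q) := by
      intro q hq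
      obtain ⟨hq1, hq2, hq3, hq4, hq5, hq6, hq7, hq8, hq9, hq10, hq11, hq12, hq13, hq14, hq15⟩ :=
        hS q hq
      apply cg_pol a hq11 hq12 hq13
      intro j
      rw [Ideal.mem_span_singleton]
      have e0 : (q : 𝓞 F) ∣ ((W * N₂ * Q : ℕ) : 𝓞 F) := by
        have e3 : q ∣ W * N₂ * Q := by
          rw [hQ]
          exact Dvd.dvd.mul_left (Finset.dvd_prod_of_mem (fun q => q) hq) (W * N₂)
        exact Nat.cast_dvd_cast e3
      have e1 : (q : 𝓞 F) ∣ a j - A j := dvd_trans e0 (haR j)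
      have e2 : a j - (P q).coeff j = (a j - A j) + (A j - (P q).coeff j) := by ring
      rw [e2]
      exact dvd_add e1 (hA2 j q hq)
    have hN2c : ∀ j, (N₂ : 𝓞 F) ∣ (pol a).coeff j - f₀.coeff j := by
      intro j
      rw [← Ideal.mem_span_singleton]
      refine cg_pol a hm0 hd0 ht0 (Ideal.span {(N₂ : 𝓞 F)}) (fun j => ?_) j
      rw [Ideal.mem_span_singleton]
      have e1 : (N₂ : 𝓞 F) ∣ a j - A j :=
        dvd_trans (by push_cast; exact Dvd.dvd.mul_right (dvd_mul_left _ _) _) (haR j)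
      have e2 : a j - f₀.coeff j = (a j - A j) + (A j - f₀.coeff j) := by ring
      rw [e2]
      exact dvd_add e1 (hA3 j)
    refine ⟨⟨ht_pol haB, hone, hcon, fun 𝔭 hp hb hPd => ?_⟩, hnear, hN2c⟩
    obtain ⟨v, hv⟩ : ∃ v : HeightOneSpectrum (𝓞 F), v.asIdeal = 𝔭 := ⟨⟨𝔭, hp, hb⟩, rfl⟩
    subst hv
    have hPd' : dis a ∈ v.asIdeal ^ 2 := hPd
    have hPd1 : Pool.Agent.N352.PF.dsc g (pol a) ∈ v.asIdeal :=
      Ideal.pow_le_self two_ne_zero hPd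
    haveI : Finite (𝓞 F ⧸ v.asIdeal) := v.asIdeal.finiteQuotientOfFreeOfNeBot v.ne_bot
    haveI : IsDomain (𝓞 F ⧸ v.asIdeal) := Ideal.Quotient.isDomain v.asIdeal
    have hPW : (W : 𝓞 F) ∉ v.asIdeal := by
      intro hd
      refine h5 F g v (pol a) f₁ hg (pol_monic a) (pol_natDegree a) ?_ (hsep v hd) hPd1
      intro j
      exact (Ideal.span_singleton_le_iff_mem _).2 hd (hone j)
    have hPS : ∀ q ∈ S, (q : 𝓞 F) ∉ v.asIdeal := by
      intro q hq hd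
      obtain ⟨hq1, hq2, hq3, hq4, hq5, hq6, hq7, hq8, hq9, hq10, hq11, hq12, hq13, hq14, hq15⟩ :=
        hS q hq
      have hc : ∀ j, (pol a).coeff j - (P q).coeff j ∈ v.asIdeal := fun j =>
        (Ideal.span_singleton_le_iff_mem _).2 hd (hcon q hq j)
      by_cases hv : v.asIdeal = 𝔮 q
      · refine h5 F g v (pol a) (X * h q) hg (pol_monic a) (pol_natDegree a) ?_ ?_ hPd1
        · intro j
          have e1 : (pol a).coeff j - (X * h q).coeff j =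
              ((pol a).coeff j - (P q).coeff j) + ((P q).coeff j - (X * h q).coeff j) := by ring
          rw [e1]
          refine Ideal.add_mem _ (hc j) ?_
          rw [hv]
          exact hq14 j
        · have e1 : rv v (X * h q) = X * rv v (h q) := by
            rw [rv, rv, Polynomial.map_mul, Polynomial.map_X]
          rw [e1]
          have e2 : Irreducible (rv v (h q)) := by
            have e3 : Irreducible (rd v.asIdeal (h q)) := by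
              rw [hv]
              exact hq10
            exact e3
          refine sep_X_mul e2 ?_
          rw [rv, hq8.natDegree_map, hq9]
          omega
      · refine h5 F g v (pol a) (P q) hg (pol_monic a) (pol_natDegree a) hc ?_ hPd1
        exact sep_of_irr (hq15 v.asIdeal v.isPrime hd hv)
    have hPN : (N₂ : 𝓞 F) ∉ v.asIdeal := by
      intro hd
      rcases hodd0 v hd with h | ⟨h, h'⟩
      · apply h
        have e1 := dsc_cg (g := g) v.asIdeal (fun j => Ideal.mem_of_dvd _ (hN2c j) hd)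
        have e2 : Pool.Agent.N352.PF.dsc g f₀ = Pool.Agent.N352.PF.dsc g (pol a) -
            (Pool.Agent.N352.PF.dsc g (pol a) - Pool.Agent.N352.PF.dsc g f₀) := by ring
        rw [e2]
        exact Ideal.sub_mem _ hPd1 e1
      · apply h'
        have e1 := dsc_cg (g := g) (v.asIdeal ^ 2) (fun j => Ideal.mem_of_dvd _ (hN2c j) h)
        have e2 : Pool.Agent.N352.PF.dsc g f₀ = Pool.Agent.N352.PF.dsc g (pol a) -
            (Pool.Agent.N352.PF.dsc g (pol a) - Pool.Agent.N352.PF.dsc g f₀) := by ring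
        rw [e2]
        exact Ideal.sub_mem _ hPd' e1
    have hPQ : ((W * N₂ * Q : ℕ) : 𝓞 F) ∉ v.asIdeal := by
      intro hd
      rw [Nat.cast_mul] at hd
      rcases v.isPrime.mem_or_mem hd with hd | hd
      · rw [Nat.cast_mul] at hd
        rcases v.isPrime.mem_or_mem hd with hd | hd
        · exact hPW hd
        · exact hPN hd
      · rw [hQ, Nat.cast_prod] at hd
        obtain ⟨q, hq, hqm⟩ := (Ideal.IsPrime.prod_mem_iff (hp := v.isPrime)).1 hd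
        exact hPS q hq hqm
    have hsmall : ∀ n : ℕ, 0 < n → (n : 𝓞 F) ∈ v.asIdeal →
        (∀ p : ℕ, p.Prime → p ∣ n → p ≤ max p₀ (max M (2 * g + 1))) → False := by
      intro n hn hm hle
      obtain ⟨p, hp1, hp2, hp3⟩ := prime_factor v.asIdeal v.isPrime n hn hm
      have hpN : ¬ p ∣ N₂ := by
        rintro ⟨m, hm⟩
        apply hPN
        rw [hm, Nat.cast_mul]
        exact Ideal.mul_mem_right _ _ hp3
      have e1 := hW p hp1 (hle p hp1 hp2) hpN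
      apply hPW
      obtain ⟨m, hm⟩ := e1
      rw [hm, Nat.cast_mul]
      exact Ideal.mul_mem_right _ _ hp3
    have hfac : ((2 * g + 1).factorial : 𝓞 F) ∉ v.asIdeal := by
      intro hd
      refine hsmall _ (Nat.factorial_pos _) hd fun p hp hpd => ?_
      exact ((hp.dvd_factorial).1 hpd).trans ((le_max_right _ _).trans (le_max_right _ _))
    have hPM1 : M < nv v := by
      by_contra hc
      have hnv2 : 2 ≤ nv v := (h7 F).2.2 v
      refine hsmall (nv v) (by omega) (Ideal.absNorm_mem v.asIdeal) fun p hp hpd => ?_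
      have e1 := Nat.le_of_dvd (by omega) hpd
      exact (e1.trans (not_lt.1 hc)).trans ((le_max_left _ _).trans (le_max_right _ _))
    have hBP : B ^ dg F ≤ nv v ^ 2 := by
      by_contra hc
      exact ha (Or.inl ⟨haU, v, hPM1, not_le.1 hc, hPQ, hPd'⟩)
    refine ⟨hBP, h3 F g v hg hfac a hPd' fun hD => ?_⟩
    exact ha (Or.inr ⟨haB, v, hBP, hPd1, hD⟩)
  -- finiteness of the family
  set Fs := {f : (𝓞 F)[X] | Fam g B W f₁ S P f ∧ Nr g z ε f ∧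
      ∀ j, (N₂ : 𝓞 F) ∣ f.coeff j - f₀.coeff j} with hFs
  have hFf : Fs.Finite := by
    refine (hBz.image pol).subset ?_
    intro f hf
    exact ⟨fun j => f.coeff j, bz_coeff hf.1.ht, (eq_pol hf.1.ht).symm⟩
  -- counting
  have c1 : (V \ (U1 ∪ U2)).ncard ≤ Fs.ncard := by
    rw [← Set.ncard_image_of_injective _ pol_inj]
    exact Set.ncard_le_ncard key hFf
  have c2 : V.ncard ≤ (V \ (U1 ∪ U2)).ncard + (U1.ncard + U2.ncard) := by
    have e1 := Set.ncard_le_ncard_diff_add_ncard V (U1 ∪ U2) (hU1f.union hU2f)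
    have e2 := Set.ncard_union_le U1 U2
    omega
  obtain ⟨m, hm⟩ : ∃ m : ℝ, m = ((W * N₂ * Q : ℕ) : ℝ) ^ (2 * g * dg F) := ⟨_, rfl⟩
  obtain ⟨D, hD⟩ : ∃ D : ℝ, D = (B : ℝ) ^ (dg F * dd g) := ⟨_, rfl⟩
  rw [← hm] at hP0 hVlow hstr
  rw [← hD] at hVlow hstr
  have c4 : (U.ncard : ℝ) * m ≤ C₁ * D := by rw [hm, hD]; exact_mod_cast hcard2
  have c3 : (4 : ℝ) * (U1.ncard * m) ≤ cV * D := by
    have e1 : (U1.ncard : ℝ) * m ≤ cV / (4 * C₁) * (C₁ * D) := by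
      calc (U1.ncard : ℝ) * m ≤ cV / (4 * C₁) * U.ncard * m :=
            mul_le_mul_of_nonneg_right hsml hP0.le
        _ = cV / (4 * C₁) * (U.ncard * m) := by ring
        _ ≤ _ := mul_le_mul_of_nonneg_left c4 (by positivity)
    have e2 : cV / (4 * C₁) * (C₁ * D) = cV * D / 4 := by field_simp
    rw [e2] at e1
    linarith
  have c5 : (4 : ℝ) * (U2.ncard * m) ≤ cV * D := by
    have e1 : (U2.ncard : ℝ) * m ≤ cV / (4 * m) * D * m :=
      mul_le_mul_of_nonneg_right hstr hP0.le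
    have e2 : cV / (4 * m) * D * m = cV * D / 4 := by field_simp
    rw [e2] at e1
    linarith
  have c6 : cV * D ≤ 2 * (m * (Fs.ncard : ℝ)) := by
    have e1 : (V.ncard : ℝ) ≤ ((V \ (U1 ∪ U2)).ncard : ℝ) + (U1.ncard + U2.ncard) := by
      exact_mod_cast c2
    have e2 : ((V \ (U1 ∪ U2)).ncard : ℝ) ≤ (Fs.ncard : ℝ) := by
      exact_mod_cast c1
    have e3 : (V.ncard : ℝ) ≤ (Fs.ncard : ℝ) + (U1.ncard + U2.ncard) := by linarith
    have e4 := mul_le_mul_of_nonneg_left e3 hP0.le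
    nlinarith [e4, hVlow, c3, c5]
  have c7 : (((∏ q ∈ S, q ^ (2 * g)) ^ Module.finrank ℚ F : ℕ) : ℝ) =
      (Q : ℝ) ^ (2 * g * dg F) := by
    rw [hQ, Finset.prod_pow]
    push_cast
    rw [← pow_mul]
  rw [c7]
  have hW1 : (0 : ℝ) < ((W * N₂ : ℕ) : ℝ) ^ (2 * g * dg F) := by
    have : 0 < W * N₂ := Nat.mul_pos hW0 hN20
    positivity
  have hm2 : m = ((W * N₂ : ℕ) : ℝ) ^ (2 * g * dg F) * (Q : ℝ) ^ (2 * g * dg F) := by
    rw [hm, Nat.cast_mul (W * N₂) Q, mul_pow]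
  rw [div_mul_eq_mul_div, div_le_iff₀ (by positivity), ← hD]
  refine c6.trans (le_of_eq ?_)
  rw [hm2]
  ring

end Pool.Agent.U376.RF
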