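import Pool.Agent.U376.RF.Main
import Pool.Agent.U376.RF.Cnt

/-!
# Many polynomials with squarefree discriminant in a residue class and near a shape (helper376)
-/

set_option autoImplicit false
set_option linter.all false

open Polynomial NumberField IsDedekindDomain
open scoped Classical

namespace Pool.Agent.U376.RF

open Pool.Agent.N783.PF
open Pool.Agent.N783.CF (Two)
open Pool.Agent.N99.PF
open Pool.Agent.N352.PJ (dd)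
open Pool.Agent.N352.PF (rv S_BX S_WK S_STR S_GF S_PF S_CU S_CL S_LD S_PR)

theorem famL (h0 : S_PTS) (g1 : S_CU) (g2 : S_CL) (hLD : S_LD) (hPR : S_PR) (g3 : S_BX)
    (g4 : S_WK) (g5 : S_STR) (g6 : Pool.Agent.N352.PF.S_DSC) (g7 : S_GF) (g8 : S_PF) (h2 : S_BAD)
    (h4 : Pool.Agent.N783.PF.S_SQF) (h5 : Pool.Agent.N783.PF.S_IRR)
    (F : Type) [Field F] [NumberField F] (g : ℕ) (hg : 1 ≤ g) (Nn : ℕ) (hNn : 0 < Nn)
    (f₀ : (𝓞 F)[X]) (hm0 : f₀.Monic) (hd0 : f₀.natDegree = 2 * g + 1) (ht0 : f₀.coeff (2 * g) = 0)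
    (hirr0 : ∀ v : HeightOneSpectrum (𝓞 F), (Nn : 𝓞 F) ∈ v.asIdeal → (2 : 𝓞 F) ∈ v.asIdeal →
      Irreducible (rv v f₀))
    (hodd0 : ∀ v : HeightOneSpectrum (𝓞 F), (Nn : 𝓞 F) ∈ v.asIdeal → (2 : 𝓞 F) ∉ v.asIdeal →
      Pool.Agent.N352.PF.dsc g f₀ ∉ v.asIdeal ∨
        ((Nn : 𝓞 F) ∈ v.asIdeal ^ 2 ∧ Pool.Agent.N352.PF.dsc g f₀ ∉ v.asIdeal ^ 2))
    {ε : ℝ} (hε : 0 < ε) (z : Fin (2 * g) → 𝓞 F) :
    FamE g (fun f : (𝓞 F)[X] => (∀ j, (Nn : 𝓞 F) ∣ f.coeff j - f₀.coeff j) ∧ Nr g z ε f) := by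
  obtain ⟨κ, hsq⟩ := h4 g F hg
  obtain ⟨C, K, hbad⟩ := h2 F g κ hg
  -- the even and the odd part of the modulus
  obtain ⟨e, N₂, hN2, hNe⟩ := Nat.exists_eq_pow_mul_and_not_dvd hNn.ne' 2 (by norm_num)
  obtain ⟨N₁, hN₁⟩ : ∃ N₁ : ℕ, N₁ = 2 ^ e := ⟨_, rfl⟩
  rw [← hN₁] at hNe
  have hN10 : 0 < N₁ := by rw [hN₁]; positivity
  have hN20 : 0 < N₂ := by
    rcases Nat.eq_zero_or_pos N₂ with h | h
    · rw [h] at hN2
      exact absurd (dvd_zero 2) hN2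
    · exact h
  have hcop2 : Nat.Coprime 2 N₂ := (Nat.Prime.coprime_iff_not_dvd Nat.prime_two).2 hN2
  have hcop12 : Nat.Coprime N₁ N₂ := by
    rw [hN₁]
    exact Nat.Coprime.pow_left _ hcop2
  have hNnc : (Nn : 𝓞 F) = (N₁ : 𝓞 F) * (N₂ : 𝓞 F) := by
    rw [hNe, Nat.cast_mul]
  have htwo : ∀ v : HeightOneSpectrum (𝓞 F), (N₁ : 𝓞 F) ∈ v.asIdeal → (2 : 𝓞 F) ∈ v.asIdeal := by
    intro v hv
    rw [hN₁, Nat.cast_pow, Nat.cast_ofNat] at hv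
    exact v.isPrime.mem_of_pow_mem _ hv
  have hntwo : ∀ v : HeightOneSpectrum (𝓞 F), (N₂ : 𝓞 F) ∈ v.asIdeal → (2 : 𝓞 F) ∉ v.asIdeal := by
    intro v hv h2v
    obtain ⟨a, b, hab⟩ := (Nat.isCoprime_iff_coprime.2 hcop2)
    have hab' : (a : 𝓞 F) * 2 + (b : 𝓞 F) * (N₂ : 𝓞 F) = 1 := by
      have := congrArg (Int.cast : ℤ → 𝓞 F) hab
      push_cast at this ⊢
      exact this
    apply v.isPrime.ne_top
    rw [Ideal.eq_top_iff_one, ← hab']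
    exact Ideal.add_mem _ (Ideal.mul_mem_left _ _ h2v) (Ideal.mul_mem_left _ _ hv)
  have hirr1 : ∀ v : HeightOneSpectrum (𝓞 F), (N₁ : 𝓞 F) ∈ v.asIdeal → (2 : 𝓞 F) ∈ v.asIdeal →
      Irreducible (rv v f₀) := by
    intro v hv h2v
    refine hirr0 v ?_ h2v
    rw [hNnc]
    exact Ideal.mul_mem_right _ _ hv
  have hsep1 : ∀ v : HeightOneSpectrum (𝓞 F), (N₁ : 𝓞 F) ∈ v.asIdeal → (rv v f₀).Separable := by
    intro v hv
    haveI : Finite (𝓞 F ⧸ v.asIdeal) := v.asIdeal.finiteQuotientOfFreeOfNeBot v.ne_bot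
    haveI : IsDomain (𝓞 F ⧸ v.asIdeal) := Ideal.Quotient.isDomain v.asIdeal
    exact Pool.Agent.N951.PF.sep_of_irr (hirr1 v hv (htwo v hv))
  have hodd1 : ∀ v : HeightOneSpectrum (𝓞 F), (N₂ : 𝓞 F) ∈ v.asIdeal →
      Pool.Agent.N352.PF.dsc g f₀ ∉ v.asIdeal ∨
        ((N₂ : 𝓞 F) ∈ v.asIdeal ^ 2 ∧ Pool.Agent.N352.PF.dsc g f₀ ∉ v.asIdeal ^ 2) := by
    intro v hv
    have hNv : (Nn : 𝓞 F) ∈ v.asIdeal := by
      rw [hNnc]
      exact Ideal.mul_mem_left _ _ hv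
    rcases hodd0 v hNv (hntwo v hv) with h | ⟨h, h'⟩
    · exact Or.inl h
    · refine Or.inr ⟨?_, h'⟩
      rw [hNnc] at h
      haveI := v.isPrime
      rcases Ideal.IsPrime.mul_mem_pow v.asIdeal h with h'' | h''
      · exact absurd (htwo v h'') (hntwo v hv)
      · exact h''
  obtain ⟨W, f₁, hKW, hf₁, hNW, hf01, c, hc, hfam⟩ :=
    famN g1 g2 hLD hPR g3 g4 g5 g6 g7 g8 F g hg (max K κ) N₁ N₂ hN10 hN20 hN2 hcop12 f₀ hm0 hd0 ht0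
      hirr1 hsep1 hodd1 hε z
  obtain ⟨-, Cp, hCp, -, hpt⟩ := h0 F
  set D : ℕ := Module.finrank ℚ F * dd g with hD
  obtain ⟨m, hm1, hm⟩ : ∃ m : ℕ, 1 ≤ m ∧ 2 * (C * (4 * 2 ^ κ : ℝ) ^ D) / c < 2 ^ m := by
    obtain ⟨m, hm⟩ : ∃ m : ℕ, 2 * (C * (4 * 2 ^ κ : ℝ) ^ D) / c < 2 ^ m :=
      pow_unbounded_of_one_lt _ (by norm_num)
    refine ⟨m + 1, by omega, hm.trans_le ?_⟩
    exact pow_le_pow_right₀ (by norm_num) (by omega)
  obtain ⟨S, 𝔮, h, P, hS, hcard, hSN⟩ := exsN F g W Nn hg hNn m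
  have hSN2 : ∀ q ∈ S, ¬ q ∣ N₂ := by
    intro q hq hd
    have e1 : q ∣ Nn := by rw [hNe]; exact Dvd.dvd.mul_left hd _
    have e2 : q ≡ 1 [MOD q] := (hSN q hq).of_dvd e1
    have e3 : q ∣ 1 := (Nat.modEq_zero_iff_dvd.1 (e2.symm.trans (by simp [Nat.ModEq])))
    exact (hS q hq).1.one_lt.ne' (Nat.dvd_one.1 e3)
  obtain ⟨B₁₀, hB₁₀⟩ := hfam S 𝔮 h P hS hSN2
  obtain ⟨N₀, hN₀⟩ := hbad W S 𝔮 h P ((le_max_left _ _).trans hKW) hS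
  have hq1 : ∀ q ∈ S, 1 ≤ q := fun q hq => (hS q hq).1.pos
  set Pn : ℕ := (∏ q ∈ S, q ^ (2 * g)) ^ Module.finrank ℚ F with hPn
  have hP0 : (0 : ℝ) < Pn := by
    have : 0 < Pn := pow_pos (Finset.prod_pos fun q hq => pow_pos (hq1 q hq) _) _
    exact_mod_cast this
  refine ⟨c / 2 / Pn, by positivity, max (max B₁₀ (4 ^ N₀)) 1, fun B hB => ?_⟩
  have hB1 : 1 ≤ B := (le_max_right _ _).trans hB
  have hb2 : B₁₀ ≤ B := ((le_max_left _ _).trans (le_max_left _ _)).trans hB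
  have hb3 : 4 ^ N₀ ≤ B := ((le_max_right _ _).trans (le_max_left _ _)).trans hB
  obtain ⟨N, hNa, hNb⟩ : ∃ N : ℕ, 2 ^ κ * B ≤ 4 ^ N ∧ 4 ^ N ≤ 4 * (2 ^ κ * B) := by
    refine ⟨Nat.log 4 (2 ^ κ * B) + 1, (Nat.lt_pow_succ_log_self (by norm_num) _).le, ?_⟩
    rw [pow_succ, mul_comm]
    refine Nat.mul_le_mul_left 4 (Nat.pow_log_le_self 4 ?_)
    positivity
  have hNN : N₀ ≤ N := by
    have e1 : 4 ^ N₀ ≤ 4 ^ N := hb3.trans (le_trans (Nat.le_mul_of_pos_left _ (by positivity)) hNa)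
    exact (Nat.pow_le_pow_iff_right (by norm_num)).1 e1
  obtain ⟨hfin, hBd⟩ := hN₀ N hNN
  have hHt := (ht_card hCp hpt g B hB1).1
  refine ⟨hHt, ?_⟩
  set H := {f : (𝓞 F)[X] | Ht g B f ∧ Irreducible (fF f) ∧ SqF g f ∧ Two g f ∧
    ((∀ j, (Nn : 𝓞 F) ∣ f.coeff j - f₀.coeff j) ∧ Nr g z ε f)} with hH
  set G := {f : (𝓞 F)[X] | Fam g B W f₁ S P f ∧ Nr g z ε f ∧
      ∀ j, (N₂ : 𝓞 F) ∣ f.coeff j - f₀.coeff j} \
    {f : (𝓞 F)[X] | LBad g N κ S 𝔮 P f} with hGdef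
  have hHf : H.Finite := hHt.subset fun f hf => hf.1
  have hG : c / 2 * (B : ℝ) ^ D ≤ Pn * (G.ncard : ℝ) := by
    refine good_card (C := C) (m := m) (κ := κ) hc hP0 B N (hB₁₀ B hb2) hfin ?_ hm ?_
    · rw [hcard] at hBd
      have e2 : Module.finrank ℚ F * (2 * N * dd g) = 2 * N * D := by rw [hD]; ring
      rw [e2] at hBd
      exact_mod_cast hBd
    · exact_mod_cast hNb
  obtain ⟨q, hq⟩ : S.Nonempty := by
    rw [← Finset.card_pos]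
    omega
  obtain ⟨hqp, hqW, -, -, -, h𝔮p, hq𝔮, hhm, hhd, hhirr, -, -, -, hACg, hAirr⟩ := hS q hq
  have hne : 𝔮 q ≠ ⊥ := by
    intro hbot
    rw [hbot, Ideal.mem_bot] at hq𝔮
    have : q = 0 := by exact_mod_cast hq𝔮
    exact hqp.ne_zero this
  have hsub : G ⊆ H := by
    intro f hf
    have hF : Fam g B W f₁ S P f := hf.1.1
    have hirr : Irreducible (fF f) := h5 F g W f₁ f hf₁ hF.one hF.ht.mon hF.ht.deg
    have hCgf : Cg (𝔮 q) f (X * h q) := by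
      intro j
      have e1 : f.coeff j - (P q).coeff j ∈ 𝔮 q :=
        (Ideal.span_singleton_le_iff_mem (𝔮 q)).2 hq𝔮 (hF.con q hq j)
      have e2 := (𝔮 q).add_mem e1 (hACg j)
      rwa [sub_add_sub_cancel] at e2
    refine ⟨hF.ht, hirr, ?_, ⟨𝔮 q, h q, h𝔮p, hne, hhm, hhd, hhirr, hCgf⟩, ?_, hf.1.2.1⟩
    · exact hsq B N W f₁ S 𝔮 h P f ((le_max_right _ _).trans hKW) hf₁ hS hF hirr hNa hB1 hf.2
    · intro j
      have e1 : (W : 𝓞 F) ∣ f.coeff j - f₁.coeff j := Ideal.mem_span_singleton.1 (hF.one j)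
      have e2 : f.coeff j - f₀.coeff j = (f.coeff j - f₁.coeff j) + (f₁.coeff j - f₀.coeff j) := by
        ring
      have e3 : (N₁ : 𝓞 F) ∣ f.coeff j - f₀.coeff j := by
        rw [e2]
        exact dvd_add ((Nat.cast_dvd_cast hNW).trans e1) (hf01 j)
      have e4 : IsCoprime (N₁ : 𝓞 F) (N₂ : 𝓞 F) := by
        have := (Nat.isCoprime_iff_coprime.2 hcop12).map (Int.castRingHom (𝓞 F))
        simpa using this
      rw [hNnc]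
      exact e4.mul_dvd e3 (hf.1.2.2 j)
  have hle : (G.ncard : ℝ) ≤ H.ncard := by
    exact_mod_cast Set.ncard_le_ncard hsub hHf
  calc c / 2 / Pn * (B : ℝ) ^ D = c / 2 * (B : ℝ) ^ D / Pn := by ring
    _ ≤ (Pn * (G.ncard : ℝ)) / Pn := by gcongr
    _ = G.ncard := by field_simp
    _ ≤ H.ncard := hle

end Pool.Agent.U376.RF
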