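import Pool.Agent.U376.RF.Main
import Pool.Agent.U376.RF.Dense
import Pool.Agent.N783.PF.Final

/-!
# Elliptic curves of rank zero in a residue class and near a shape (helper376, after `N61/PF/Fin1.lean`)
-/

set_option autoImplicit false
set_option linter.all false

open Polynomial IsDedekindDomain NumberField
open scoped Classical

namespace Pool.Agent.U376.RF

open Pool.Agent.N783.PF
open Pool.Agent.N61.PF
open Pool.Agent.N352.PF (rv)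

section

variable {F : Type} [Field F] [NumberField F]

/-- the discriminant of the cubic polynomial -/
theorem dsc_pol (A B : 𝓞 F) :
    Pool.Agent.N352.PF.dsc 1 (pol A B) = 4 * A ^ 3 + 27 * B ^ 2 := by
  have hd : (pol A B).degree = 3 := by
    rw [degree_eq_natDegree (pol_monic A B).ne_zero, pol_natDegree]
    rfl
  have h1 := resultant_deriv (f := pol A B) (by rw [hd]; norm_num)
  rw [discr_of_degree_eq_three hd, pol_natDegree, (pol_monic A B).leadingCoeff, pol_coeff0,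
    pol_coeff1, pol_coeff2] at h1
  have h3 : (pol A B).coeff 3 = 1 := by
    have := (pol_monic A B).coeff_natDegree
    rwa [pol_natDegree] at this
  rw [h3] at h1
  unfold Pool.Agent.N352.PF.dsc
  show (pol A B).resultant (derivative (pol A B)) 3 2 = _
  refine h1.trans ?_
  norm_num
  ring

/-- a cubic polynomial without zero is irreducible -/
theorem irr_pol (v : HeightOneSpectrum (𝓞 F)) (A B : 𝓞 F)
    (h : ∀ x : 𝓞 F, x ^ 3 + A * x + B ∉ v.asIdeal) : Irreducible (rv v (pol A B)) := by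
  haveI : IsDomain (𝓞 F ⧸ v.asIdeal) := Ideal.Quotient.isDomain v.asIdeal
  have hm : (rv v (pol A B)).Monic := (pol_monic A B).map _
  have hd : (rv v (pol A B)).natDegree = 3 := by
    rw [(pol_monic A B).natDegree_map, pol_natDegree]
  rw [hm.irreducible_iff_roots_eq_zero_of_degree_le_three (by omega) (by omega)]
  refine Multiset.eq_zero_of_forall_notMem fun r hr => ?_
  have h1 := (mem_roots'.1 hr).2
  obtain ⟨x, rfl⟩ := Ideal.Quotient.mk_surjective r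
  rw [IsRoot.def, eval_map, eval₂_hom, Ideal.Quotient.eq_zero_iff_mem] at h1
  apply h x
  have e1 : (pol A B).eval x = x ^ 3 + A * x + B := by
    unfold pol
    simp
  rwa [e1] at h1

/-- integral multiples of two elements -/
theorem exists_mult (x y : F) : ∃ m : ℕ, 0 < m ∧ (∃ u : 𝓞 F, (u : F) = (m : F) ^ 2 * x) ∧
    ∃ w : 𝓞 F, (w : F) = (m : F) ^ 3 * y := by
  classical
  have : Algebra.IsAlgebraic ℤ F := (IsFractionRing.comap_isAlgebraic_iff (A := ℤ) (K := ℚ) (C := F)).2 inferInstance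
  obtain ⟨n, hn0, hn⟩ := Algebra.IsAlgebraic.exists_integral_multiples ℤ ({x, y} : Finset F)
  obtain ⟨m, hm⟩ : ∃ m : ℕ, m = n.natAbs := ⟨_, rfl⟩
  have hm0 : 0 < m := by rw [hm]; exact Int.natAbs_pos.2 hn0
  have h1 : ∀ z ∈ ({x, y} : Finset F), IsIntegral ℤ ((m : F) * z) := by
    intro z hz
    have h2 := hn z hz
    rw [zsmul_eq_mul] at h2
    rcases Int.natAbs_eq n with h3 | h3
    · rw [← hm] at h3
      have e : (n : F) = (m : F) := by rw [h3]; push_cast; rfl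
      rw [e] at h2
      exact h2
    · rw [← hm] at h3
      have e : (n : F) = -(m : F) := by rw [h3]; push_cast; rfl
      rw [e, neg_mul] at h2
      have h4 := h2.neg
      rw [neg_neg] at h4
      exact h4
  have hmi : IsIntegral ℤ ((m : F)) := by
    have : IsIntegral ℤ (algebraMap ℤ F (m : ℤ)) := isIntegral_algebraMap
    simpa using this
  refine ⟨m, hm0, ⟨⟨(m : F) ^ 2 * x, ?_⟩, rfl⟩, ⟨⟨(m : F) ^ 3 * y, ?_⟩, rfl⟩⟩
  · have e : (m : F) ^ 2 * x = (m : F) * ((m : F) * x) := by ring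
    rw [e]
    exact hmi.mul (h1 x (by simp))
  · have e : (m : F) ^ 3 * y = (m : F) ^ 2 * ((m : F) * y) := by ring
    rw [e]
    exact (hmi.pow 2).mul (h1 y (by simp))

/-- `(A, B)` is near to `(t ^ 2 a, t ^ 3 b)` for a natural number `t > 0`. -/
def NearE (a b : (F →+* ℂ) → ℂ) (ε : ℝ) (p : 𝓞 F × 𝓞 F) : Prop :=
  ∃ t : ℕ, 0 < t ∧ ∀ σ : F →+* ℂ, ‖σ (p.1 : F) - (t : ℂ) ^ 2 * a σ‖ ≤ ε * (t : ℝ) ^ 2 ∧
    ‖σ (p.2 : F) - (t : ℂ) ^ 3 * b σ‖ ≤ ε * (t : ℝ) ^ 3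

/-- The pairs `(A, B)` which are congruent to `(A₀, B₀)` modulo `N`, near to the shape `(a, b)`. -/
def InE (N : ℕ) (A₀ B₀ : 𝓞 F) (a b : (F →+* ℂ) → ℂ) (ε : ℝ) (p : 𝓞 F × 𝓞 F) : Prop :=
  (N : 𝓞 F) ∣ p.1 - A₀ ∧ (N : 𝓞 F) ∣ p.2 - B₀ ∧ NearE a b ε p

theorem inE_of {N m : ℕ} {A₀ B₀ : 𝓞 F} {a b : (F →+* ℂ) → ℂ} {ε : ℝ} (hε : 0 < ε) {α β : F}
    (hα : ∀ σ : F →+* ℂ, ‖σ α - a σ‖ < ε / 2) (hβ : ∀ σ : F →+* ℂ, ‖σ β - b σ‖ < ε / 2)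
    (hm : 0 < m) {u w : 𝓞 F} (hu : (u : F) = (m : F) ^ 2 * α) (hw : (w : F) = (m : F) ^ 3 * β)
    {f : (𝓞 F)[X]} (hc : ∀ j, (N : 𝓞 F) ∣ f.coeff j - (pol A₀ B₀).coeff j)
    (hn : Nr 1 (fun j : Fin (2 * 1) => if (j : ℕ) = 0 then w else u) (ε / 2) f) :
    InE N A₀ B₀ a b ε (f.coeff 1, f.coeff 0) := by
  have h1 := hc 1
  have h0 := hc 0
  rw [pol_coeff1] at h1
  rw [pol_coeff0] at h0
  refine ⟨h1, h0, ?_⟩
  obtain ⟨t, ht, hn⟩ := hn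
  have hm1 : (1 : ℝ) ≤ m := by exact_mod_cast hm
  have ht0 : (0 : ℝ) < t := by exact_mod_cast ht
  have hsc : ∀ (k : ℕ) (x c : ℂ) (y : ℂ), ‖x - (m : ℂ) ^ k * c * (t : ℂ) ^ k‖ ≤
      ε / 2 * (t : ℝ) ^ k → ‖c - y‖ < ε / 2 →
      ‖x - ((t * m : ℕ) : ℂ) ^ k * y‖ ≤ ε * ((t * m : ℕ) : ℝ) ^ k := by
    intro k x c y e1 e2
    have e3 : x - ((t * m : ℕ) : ℂ) ^ k * y = (x - (m : ℂ) ^ k * c * (t : ℂ) ^ k) +
        ((t * m : ℕ) : ℂ) ^ k * (c - y) := by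
      push_cast
      rw [mul_pow]
      ring
    rw [e3]
    refine (norm_add_le _ _).trans ?_
    rw [norm_mul, norm_pow, Complex.norm_natCast]
    have e4 : (t : ℝ) ^ k ≤ ((t * m : ℕ) : ℝ) ^ k := by
      push_cast
      exact pow_le_pow_left₀ ht0.le (le_mul_of_one_le_right ht0.le hm1) _
    have e5 : (0 : ℝ) < ((t * m : ℕ) : ℝ) ^ k := lt_of_lt_of_le (by positivity) e4
    calc _ ≤ ε / 2 * (t : ℝ) ^ k + ((t * m : ℕ) : ℝ) ^ k * (ε / 2) :=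
          add_le_add e1 (mul_le_mul_of_nonneg_left e2.le e5.le)
      _ ≤ ε / 2 * ((t * m : ℕ) : ℝ) ^ k + ((t * m : ℕ) : ℝ) ^ k * (ε / 2) := by
          gcongr
      _ = _ := by ring
  refine ⟨t * m, Nat.mul_pos ht hm, fun σ => ⟨?_, ?_⟩⟩
  · refine hsc 2 _ (σ α) _ ?_ (hα σ)
    have e1 := hn ⟨1, by norm_num⟩ σ
    have e2 : σ (u : F) = (m : ℂ) ^ 2 * σ α := by rw [hu, map_mul, map_pow, map_natCast]
    simpa [e2] using e1
  · refine hsc 3 _ (σ β) _ ?_ (hβ σ)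
    have e1 := hn ⟨0, by norm_num⟩ σ
    have e2 : σ (w : F) = (m : ℂ) ^ 3 * σ β := by rw [hw, map_mul, map_pow, map_natCast]
    simpa [e2] using e1

end

/-- **A positive proportion of rank zero in every class and near every shape.** -/
theorem finN (F : Type) [Field F] [NumberField F] (N : ℕ) (hN : 0 < N) (A₀ B₀ : 𝓞 F)
    (h2 : ∀ 𝔭 : Ideal (𝓞 F), 𝔭.IsPrime → 𝔭 ≠ ⊥ → (N : 𝓞 F) ∈ 𝔭 → (2 : 𝓞 F) ∈ 𝔭 →
      ∀ x : 𝓞 F, x ^ 3 + A₀ * x + B₀ ∉ 𝔭)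
    (hodd : ∀ 𝔭 : Ideal (𝓞 F), 𝔭.IsPrime → 𝔭 ≠ ⊥ → (N : 𝓞 F) ∈ 𝔭 → (2 : 𝓞 F) ∉ 𝔭 →
      4 * A₀ ^ 3 + 27 * B₀ ^ 2 ∉ 𝔭 ∨
        ((N : 𝓞 F) ∈ 𝔭 ^ 2 ∧ 4 * A₀ ^ 3 + 27 * B₀ ^ 2 ∉ 𝔭 ^ 2))
    (a b : (F →+* ℂ) → ℂ)
    (ha : ∀ σ : F →+* ℂ, a (ComplexEmbedding.conjugate σ) = (starRingEnd ℂ) (a σ))
    (hb : ∀ σ : F →+* ℂ, b (ComplexEmbedding.conjugate σ) = (starRingEnd ℂ) (b σ))
    {ε : ℝ} (hε : 0 < ε) :
    ∃ c : ℝ, 0 < c ∧ ∃ Y₀ : ℝ, ∀ Y : ℝ, {p : 𝓞 F × 𝓞 F | Crv Y p}.Finite ∧ (Y₀ ≤ Y →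
      0 < {p : 𝓞 F × 𝓞 F | Crv Y p}.ncard ∧
      c * ({p : 𝓞 F × 𝓞 F | Crv Y p}.ncard : ℝ) ≤
        ({p : 𝓞 F × 𝓞 F | (Crv Y p ∧ InE N A₀ B₀ a b ε p) ∧ Good p}.ncard : ℝ)) := by
  obtain ⟨α, hα⟩ := dense_emb a ha (half_pos hε)
  obtain ⟨β, hβ⟩ := dense_emb b hb (half_pos hε)
  obtain ⟨m, hm, ⟨u, hu⟩, ⟨w, hw⟩⟩ := exists_mult α β
  obtain ⟨-, C, hC, hlow, hup⟩ := Pool.Agent.N490.PF.pts F
  obtain ⟨c, hc, B₀', hmain⟩ := mainN Pool.Agent.N490.PF.pts Pool.Agent.N75.PF.cu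
    Pool.Agent.N364.PF.cl Pool.Agent.N189.PF.ld Pool.Agent.N195.PF.pr Pool.Agent.N352.PF.bxT
    Pool.Agent.N935.PF.WK.wk
    (Pool.Agent.N352.PF.STR331.str Pool.Agent.N75.PF.cu Pool.Agent.N364.PF.cl Pool.Agent.N195.PF.pf)
    Pool.Agent.N195.PF.dscp Pool.Agent.N823.PF.gf Pool.Agent.N195.PF.pf
    Pool.Agent.N783.PF.bad Pool.Agent.N783.PF.tw F 1 le_rfl N hN (pol A₀ B₀) (pol_monic A₀ B₀)
    (pol_natDegree A₀ B₀) (pol_coeff2 A₀ B₀)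
    (fun v hv h2v => irr_pol v A₀ B₀ (h2 v.asIdeal v.isPrime v.ne_bot hv h2v))
    (fun v hv h2v => by
      rw [dsc_pol]
      exact hodd v.asIdeal v.isPrime v.ne_bot hv h2v)
    (half_pos hε) (fun j : Fin (2 * 1) => if (j : ℕ) = 0 then w else u)
  set d := Module.finrank ℚ F with hd
  set B₁ : ℕ := max B₀' 1 with hB₁
  refine ⟨c / (C ^ 2 * (C ^ 2 * 2 ^ (6 * d + 2))), by positivity, 27 * (B₁ : ℝ) ^ 6, ?_⟩
  intro Y
  have hfin := crv_finite (F := F) Pool.Agent.N490.PF.pts Y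
  refine ⟨hfin, ?_⟩
  intro hY
  have hB₁1 : 1 ≤ B₁ := le_max_right _ _
  have hB₁r : (1 : ℝ) ≤ B₁ := by exact_mod_cast hB₁1
  have hY27 : 27 ≤ Y := by
    have : (1 : ℝ) ≤ (B₁ : ℝ) ^ 6 := one_le_pow₀ hB₁r
    linarith
  obtain ⟨B, hBB, hBY, hYB⟩ := exists_B B₁ Y hB₁1 hY
  have hB1 : 1 ≤ B := hB₁1.trans hBB
  obtain ⟨hfinH, hprop⟩ := hmain B ((le_max_left _ _).trans hBB)
  constructor
  · rw [Set.ncard_pos hfin]
    refine ⟨(1, 1), ⟨?_, ?_, ?_⟩⟩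
    · norm_num
    · intro 𝔭 hp _ hcon
      apply hp.ne_top
      rw [Ideal.eq_top_iff_one]
      exact Ideal.pow_le_self (by norm_num) hcon.1
    · intro σ
      constructor
      · simp; linarith
      · simp; linarith
  · have hu' := crv_upper hC hup hB1 hYB
    have hl := ht_lower hC hlow hB1 hfinH
    rw [← hd] at hu' hl
    set H := {f : (𝓞 F)[X] | Ht 1 B f ∧ Irreducible (fF f) ∧ SelZero f ∧ Min 1 f ∧
      (∀ j, (N : 𝓞 F) ∣ f.coeff j - (pol A₀ B₀).coeff j) ∧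
      Nr 1 (fun j : Fin (2 * 1) => if (j : ℕ) = 0 then w else u) (ε / 2) f} with hH
    have h5 : (H.ncard : ℝ) ≤
        ({p : 𝓞 F × 𝓞 F | (Crv Y p ∧ InE N A₀ B₀ a b ε p) ∧ Good p}.ncard : ℝ) := by
      have h6 := Set.ncard_le_ncard_of_injOn (fun f : (𝓞 F)[X] => (f.coeff 1, f.coeff 0))
        (s := H)
        (t := {p : 𝓞 F × 𝓞 F | (Crv Y p ∧ InE N A₀ B₀ a b ε p) ∧ Good p})
        (fun f hf => ⟨⟨crv_of_ht hf.1 hf.2.1 hf.2.2.2.1 hBY,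
          inE_of hε hα hβ hm hu hw hf.2.2.2.2.1 hf.2.2.2.2.2⟩,
          good_of selc Pool.Agent.N713.QM.gfc Pool.Agent.N459.QM.finc hf.1 hf.2.1 hf.2.2.1⟩)
        (by
          intro f hf f' hf' h
          have e := Prod.mk.injEq .. ▸ h
          rw [eq_pol hf.1, eq_pol hf'.1, e.1, e.2])
        (hfin.subset fun p hp => hp.1.1)
      exact_mod_cast h6
    have h7 : ({p : 𝓞 F × 𝓞 F | Crv Y p}.ncard : ℝ) ≤
        (C ^ 2 * 2 ^ (6 * d + 2)) * (C ^ 2 * ({f : (𝓞 F)[X] | Ht 1 B f}.ncard : ℝ)) :=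
      hu'.trans (mul_le_mul_of_nonneg_left hl (by positivity))
    calc c / (C ^ 2 * (C ^ 2 * 2 ^ (6 * d + 2))) * ({p : 𝓞 F × 𝓞 F | Crv Y p}.ncard : ℝ)
        ≤ c / (C ^ 2 * (C ^ 2 * 2 ^ (6 * d + 2))) *
          ((C ^ 2 * 2 ^ (6 * d + 2)) * (C ^ 2 * ({f : (𝓞 F)[X] | Ht 1 B f}.ncard : ℝ))) :=
          mul_le_mul_of_nonneg_left h7 (by positivity)
      _ = c * ({f : (𝓞 F)[X] | Ht 1 B f}.ncard : ℝ) := by
          field_simp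
      _ ≤ _ := hprop.trans h5

end Pool.Agent.U376.RF
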