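import Pool.Agent.U376.RF.Fam
import Pool.Agent.U376.RF.Exs
import Pool.Agent.N99.PF.Main

/-!
# A positive proportion in a residue class and near a shape (helper376, after `N99/PF/Main.lean`)
-/

set_option autoImplicit false
set_option linter.all false

open Polynomial NumberField IsDedekindDomain
open scoped Classical

namespace Pool.Agent.U376.RF

open Pool.Agent.N783.PF
open Pool.Agent.N99.PF
open Pool.Agent.N352.PJ (dd)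
open Pool.Agent.N352.PF (rv S_BX S_WK S_STR S_GF S_PF S_CU S_CL S_LD S_PR)

/-- twists preserve the shape -/
theorem nr_scale {F : Type} [Field F] [NumberField F] {g D : ℕ} (hD : 0 < D)
    {z : Fin (2 * g) → 𝓞 F} {ε : ℝ} {f : (𝓞 F)[X]} (hd : f.natDegree = 2 * g + 1)
    (h : Nr g z ε f) : Nr g z ε (f.scaleRoots ((D : ℕ) : 𝓞 F)) := by
  obtain ⟨t, ht, hn⟩ := h
  have hD0 : (0 : ℝ) < D := by exact_mod_cast hD
  refine ⟨t * D, Nat.mul_pos ht hD, fun j σ => ?_⟩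
  rw [coeff_scaleRoots, hd]
  have e1 : σ (((f.coeff (j : ℕ) * ((D : ℕ) : 𝓞 F) ^ (2 * g + 1 - (j : ℕ)) : 𝓞 F)) : F) -
      σ (z j : F) * ((t * D : ℕ) : ℂ) ^ (2 * g + 1 - (j : ℕ)) =
      (σ (f.coeff (j : ℕ) : F) - σ (z j : F) * (t : ℂ) ^ (2 * g + 1 - (j : ℕ))) *
        (D : ℂ) ^ (2 * g + 1 - (j : ℕ)) := by
    push_cast
    rw [map_mul, map_pow, map_natCast, mul_pow]
    ring
  rw [e1, norm_mul, norm_pow, Complex.norm_natCast]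
  calc _ ≤ ε * (t : ℝ) ^ (2 * g + 1 - (j : ℕ)) * (D : ℝ) ^ (2 * g + 1 - (j : ℕ)) :=
        mul_le_mul_of_nonneg_right (hn j σ) (by positivity)
    _ = _ := by push_cast; rw [mul_pow]; ring

/-- twists by numbers which are `1` modulo `N` preserve the residue class -/
theorem cg_scale {F : Type} [Field F] [NumberField F] {g D N : ℕ} (hD : D ≡ 1 [MOD N])
    {f f₀ : (𝓞 F)[X]} (h : ∀ j, (N : 𝓞 F) ∣ f.coeff j - f₀.coeff j) :
    ∀ j, (N : 𝓞 F) ∣ (f.scaleRoots ((D : ℕ) : 𝓞 F)).coeff j - f₀.coeff j := by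
  intro j
  rw [coeff_scaleRoots]
  have h1 : (N : 𝓞 F) ∣ ((D : ℕ) : 𝓞 F) ^ (f.natDegree - j) - 1 := by
    have e0 : D ^ (f.natDegree - j) ≡ 1 [MOD N] := by
      have := hD.pow (f.natDegree - j)
      rwa [one_pow] at this
    have e1 : (N : ℤ) ∣ ((D ^ (f.natDegree - j) : ℕ) : ℤ) - 1 := by
      have := (Nat.modEq_iff_dvd.1 e0.symm)
      push_cast at this ⊢
      exact this
    have e2 := map_dvd (Int.castRingHom (𝓞 F)) e1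
    push_cast at e2
    simpa using e2
  have e3 : f.coeff j * ((D : ℕ) : 𝓞 F) ^ (f.natDegree - j) - f₀.coeff j =
      f.coeff j * (((D : ℕ) : 𝓞 F) ^ (f.natDegree - j) - 1) + (f.coeff j - f₀.coeff j) := by ring
  rw [e3]
  exact dvd_add (Dvd.dvd.mul_left h1 _) (h j)

theorem mainN (h0 : S_PTS) (g1 : S_CU) (g2 : S_CL) (hLD : S_LD) (hPR : S_PR) (g3 : S_BX)
    (g4 : S_WK) (g5 : S_STR) (g6 : Pool.Agent.N352.PF.S_DSC) (g7 : S_GF) (g8 : S_PF) (h2 : S_BAD) (h4 : S_TW)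
    (F : Type) [Field F] [NumberField F] (g : ℕ) (hg : 1 ≤ g) (Nn : ℕ) (hNn : 0 < Nn)
    (f₀ : (𝓞 F)[X]) (hm0 : f₀.Monic) (hd0 : f₀.natDegree = 2 * g + 1) (ht0 : f₀.coeff (2 * g) = 0)
    (hirr0 : ∀ v : HeightOneSpectrum (𝓞 F), (Nn : 𝓞 F) ∈ v.asIdeal → (2 : 𝓞 F) ∈ v.asIdeal →
      Irreducible (rv v f₀))
    (hodd0 : ∀ v : HeightOneSpectrum (𝓞 F), (Nn : 𝓞 F) ∈ v.asIdeal → (2 : 𝓞 F) ∉ v.asIdeal →
      Pool.Agent.N352.PF.dsc g f₀ ∉ v.asIdeal ∨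
        ((Nn : 𝓞 F) ∈ v.asIdeal ^ 2 ∧ Pool.Agent.N352.PF.dsc g f₀ ∉ v.asIdeal ^ 2))
    {ε : ℝ} (hε : 0 < ε) (z : Fin (2 * g) → 𝓞 F) :
    ∃ c : ℝ, 0 < c ∧ ∃ B₀ : ℕ, ∀ B ≥ B₀,
    {f : (𝓞 F)[X] | Ht g B f}.Finite ∧ c * ({f : (𝓞 F)[X] | Ht g B f}.ncard : ℝ) ≤
      ({f : (𝓞 F)[X] | Ht g B f ∧ Irreducible (fF f) ∧ SelZero f ∧ Min g f ∧
        (∀ j, (Nn : 𝓞 F) ∣ f.coeff j - f₀.coeff j) ∧ Nr g z ε f}.ncard : ℝ) := by
  obtain ⟨κ, htw⟩ := h4 g F hg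
  obtain ⟨C, K, hbad⟩ := h2 F g κ hg
  -- the even and the odd part of the modulus
  obtain ⟨e, N₂, hN2, hNe⟩ := Nat.exists_eq_pow_mul_and_not_dvd hNn.ne' 2 (by norm_num)
  obtain ⟨N₁, hN₁⟩ : ∃ N₁ : ℕ, N₁ = 2 ^ e := ⟨_, rfl⟩
  rw [← hN₁] at hNe
  have hN10 : 0 < N₁ := by rw [hN₁]; positivity
  have hN20 : 0 < N₂ := by
    rcases Nat.eq_zero_or_pos N₂ with h | h
    · rw [h] at hN2
      exact absurd (dvd_zero 2) hN2
    · exact h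
  have hcop2 : Nat.Coprime 2 N₂ := (Nat.Prime.coprime_iff_not_dvd Nat.prime_two).2 hN2
  have hcop12 : Nat.Coprime N₁ N₂ := by
    rw [hN₁]
    exact Nat.Coprime.pow_left _ hcop2
  have hNnc : (Nn : 𝓞 F) = (N₁ : 𝓞 F) * (N₂ : 𝓞 F) := by
    rw [hNe, Nat.cast_mul]
  have htwo : ∀ v : HeightOneSpectrum (𝓞 F), (N₁ : 𝓞 F) ∈ v.asIdeal → (2 : 𝓞 F) ∈ v.asIdeal := by
    intro v hv
    rw [hN₁, Nat.cast_pow, Nat.cast_ofNat] at hv
    exact v.isPrime.mem_of_pow_mem _ hv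
  have hntwo : ∀ v : HeightOneSpectrum (𝓞 F), (N₂ : 𝓞 F) ∈ v.asIdeal → (2 : 𝓞 F) ∉ v.asIdeal := by
    intro v hv h2v
    obtain ⟨a, b, hab⟩ := (Nat.isCoprime_iff_coprime.2 hcop2)
    have hab' : (a : 𝓞 F) * 2 + (b : 𝓞 F) * (N₂ : 𝓞 F) = 1 := by
      have := congrArg (Int.cast : ℤ → 𝓞 F) hab
      push_cast at this ⊢
      exact this
    apply v.isPrime.ne_top
    rw [Ideal.eq_top_iff_one, ← hab']
    exact Ideal.add_mem _ (Ideal.mul_mem_left _ _ h2v) (Ideal.mul_mem_left _ _ hv)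
  have hirr1 : ∀ v : HeightOneSpectrum (𝓞 F), (N₁ : 𝓞 F) ∈ v.asIdeal → (2 : 𝓞 F) ∈ v.asIdeal →
      Irreducible (rv v f₀) := by
    intro v hv h2v
    refine hirr0 v ?_ h2v
    rw [hNnc]
    exact Ideal.mul_mem_right _ _ hv
  have hsep1 : ∀ v : HeightOneSpectrum (𝓞 F), (N₁ : 𝓞 F) ∈ v.asIdeal → (rv v f₀).Separable := by
    intro v hv
    haveI : Finite (𝓞 F ⧸ v.asIdeal) := v.asIdeal.finiteQuotientOfFreeOfNeBot v.ne_bot
    haveI : IsDomain (𝓞 F ⧸ v.asIdeal) := Ideal.Quotient.isDomain v.asIdeal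
    exact Pool.Agent.N951.PF.sep_of_irr (hirr1 v hv (htwo v hv))
  have hodd1 : ∀ v : HeightOneSpectrum (𝓞 F), (N₂ : 𝓞 F) ∈ v.asIdeal →
      Pool.Agent.N352.PF.dsc g f₀ ∉ v.asIdeal ∨
        ((N₂ : 𝓞 F) ∈ v.asIdeal ^ 2 ∧ Pool.Agent.N352.PF.dsc g f₀ ∉ v.asIdeal ^ 2) := by
    intro v hv
    have hNv : (Nn : 𝓞 F) ∈ v.asIdeal := by
      rw [hNnc]
      exact Ideal.mul_mem_left _ _ hv
    rcases hodd0 v hNv (hntwo v hv) with h | ⟨h, h'⟩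
    · exact Or.inl h
    · refine Or.inr ⟨?_, h'⟩
      rw [hNnc] at h
      haveI := v.isPrime
      rcases Ideal.IsPrime.mul_mem_pow v.asIdeal h with h'' | h''
      · exact absurd (htwo v h'') (hntwo v hv)
      · exact h''
  obtain ⟨W, f₁, hKW, hf₁, hNW, hf01, c, hc, hfam⟩ :=
    famN g1 g2 hLD hPR g3 g4 g5 g6 g7 g8 F g hg (max K κ) N₁ N₂ hN10 hN20 hN2 hcop12 f₀ hm0 hd0 ht0
      hirr1 hsep1 hodd1 hε z
  obtain ⟨-, Cp, hCp, -, hpt⟩ := h0 F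
  set D : ℕ := Module.finrank ℚ F * dd g with hD
  obtain ⟨m, hm⟩ : ∃ m : ℕ, 2 * (C * (4 * 2 ^ κ : ℝ) ^ D) / c < 2 ^ m :=
    pow_unbounded_of_one_lt _ (by norm_num)
  obtain ⟨S, 𝔮, h, P, hS, hcard, hSN⟩ := exsN F g W Nn hg hNn m
  have hSN2 : ∀ q ∈ S, ¬ q ∣ N₂ := by
    intro q hq hd
    have e1 : q ∣ Nn := by rw [hNe]; exact Dvd.dvd.mul_left hd _
    have e2 : q ≡ 1 [MOD q] := (hSN q hq).of_dvd e1
    have e3 : q ∣ 1 := (Nat.modEq_zero_iff_dvd.1 (e2.symm.trans (by simp [Nat.ModEq])))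
    exact (hS q hq).1.one_lt.ne' (Nat.dvd_one.1 e3)
  obtain ⟨B₁₀, hB₁₀⟩ := hfam S 𝔮 h P hS hSN2
  obtain ⟨N₀, hN₀⟩ := hbad W S 𝔮 h P ((le_max_left _ _).trans hKW) hS
  set Q : ℕ := ∏ q ∈ S, q with hQ
  have hq1 : ∀ q ∈ S, 1 ≤ q := fun q hq => (hS q hq).1.pos
  have hQ1 : 1 ≤ Q := Finset.one_le_prod' hq1
  set Pn : ℕ := (∏ q ∈ S, q ^ (2 * g)) ^ Module.finrank ℚ F with hPn
  have hP0 : (0 : ℝ) < Pn := by
    have : 0 < Pn := pow_pos (Finset.prod_pos fun q hq => pow_pos (hq1 q hq) _) _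
    exact_mod_cast this
  have hQ0 : (0 : ℝ) < Q := by exact_mod_cast hQ1
  set X₀ : ℕ := max (max B₁₀ (4 ^ N₀)) 1 with hX₀
  refine ⟨c / 2 / (Pn * 2 ^ m * ((2 * Cp) ^ (2 * g) * (2 * Q) ^ D)), by positivity, X₀ * Q,
    fun B hB => ?_⟩
  set B₁ : ℕ := B / Q with hB₁
  have hBX : X₀ ≤ B₁ := (Nat.le_div_iff_mul_le hQ1).2 hB
  have hb1 : 1 ≤ B₁ := (le_max_right _ _).trans hBX
  have hb2 : B₁₀ ≤ B₁ := ((le_max_left _ _).trans (le_max_left _ _)).trans hBX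
  have hb3 : 4 ^ N₀ ≤ B₁ := ((le_max_right _ _).trans (le_max_left _ _)).trans hBX
  have hBQ : B₁ * Q ≤ B := Nat.div_mul_le_self B Q
  have hBQ2 : B ≤ 2 * Q * B₁ := by
    have e1 : B < B₁ * Q + Q := by
      have := Nat.lt_div_mul_add (a := B) (b := Q) hQ1
      exact this
    nlinarith
  have hB1 : 1 ≤ B := le_trans (by nlinarith) hBQ
  obtain ⟨N, hNa, hNb⟩ : ∃ N : ℕ, 2 ^ κ * B₁ ≤ 4 ^ N ∧ 4 ^ N ≤ 4 * (2 ^ κ * B₁) := by
    refine ⟨Nat.log 4 (2 ^ κ * B₁) + 1, (Nat.lt_pow_succ_log_self (by norm_num) _).le, ?_⟩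
    rw [pow_succ, mul_comm]
    refine Nat.mul_le_mul_left 4 (Nat.pow_log_le_self 4 ?_)
    positivity
  have hNN : N₀ ≤ N := by
    have e1 : 4 ^ N₀ ≤ 4 ^ N := hb3.trans (le_trans (Nat.le_mul_of_pos_left _ (by positivity)) hNa)
    exact (Nat.pow_le_pow_iff_right (by norm_num)).1 e1
  obtain ⟨hfin, hBd⟩ := hN₀ N hNN
  refine ⟨(ht_card hCp hpt g B hB1).1, ?_⟩
  set H := {f : (𝓞 F)[X] | Ht g B f ∧ Irreducible (fF f) ∧ SelZero f ∧ Min g f ∧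
        (∀ j, (Nn : 𝓞 F) ∣ f.coeff j - f₀.coeff j) ∧ Nr g z ε f} with hH
  set G := {f : (𝓞 F)[X] | Fam g B₁ W f₁ S P f ∧ Nr g z ε f ∧
      ∀ j, (N₂ : 𝓞 F) ∣ f.coeff j - f₀.coeff j} \
    {f : (𝓞 F)[X] | LBad g N κ S 𝔮 P f} with hGdef
  have hHf : H.Finite := (ht_card hCp hpt g B hB1).1.subset fun f hf => hf.1
  have hGf : G.Finite := (ht_card hCp hpt g B₁ hb1).1.subset fun f hf => hf.1.1.ht
  have hG : c / 2 * (B₁ : ℝ) ^ D ≤ Pn * (G.ncard : ℝ) := by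
    refine good_card (C := C) (m := m) (κ := κ) hc hP0 B₁ N (hB₁₀ B₁ hb2) hfin ?_ hm ?_
    · rw [hcard] at hBd
      have e2 : Module.finrank ℚ F * (2 * N * dd g) = 2 * N * D := by rw [hD]; ring
      rw [e2] at hBd
      exact_mod_cast hBd
    · exact_mod_cast hNb
  have hJpos : ∀ J ⊆ S, 0 < Dp J := by
    intro J hJ
    exact Finset.prod_pos fun q hq => hq1 q (hJ hq)
  have hJ0 : ∀ J ⊆ S, ((Dp J : ℕ) : 𝓞 F) ≠ 0 := by
    intro J hJ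
    have h5 : (Dp J : ℕ) ≠ 0 := (hJpos J hJ).ne'
    exact_mod_cast h5
  have hJN : ∀ J ⊆ S, Dp J ≡ 1 [MOD Nn] := by
    intro J hJ
    induction J using Finset.induction_on with
    | empty => simp [Dp, Nat.ModEq]
    | insert a J' ha ih =>
      rw [Finset.insert_subset_iff] at hJ
      have e1 := (hSN a hJ.1).mul (ih hJ.2)
      rw [mul_one] at e1
      show (∏ q ∈ insert a J', q) ≡ 1 [MOD Nn]
      rw [Finset.prod_insert ha]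
      exact e1
  have hcard1 := card_fib hGf hHf S (fun J f => f.scaleRoots ((Dp J : ℕ) : 𝓞 F)) (by
      intro f hf
      obtain ⟨J, hJ, hirr, hsel, hmin⟩ := htw B₁ N W f₁ S 𝔮 h P f ((le_max_right _ _).trans hKW)
        hf₁ hS hf.1.1 hNa hb1 hf.2
      have hDle : Dp J ≤ Q :=
        Finset.prod_le_prod_of_subset_of_one_le' hJ fun q hq _ => hq1 q hq
      refine ⟨J, hJ, ht_scale hf.1.1.ht ((Nat.mul_le_mul_left _ hDle).trans hBQ), hirr, hsel, hmin,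
        cg_scale (g := g) (hJN J hJ) ?_, nr_scale (hJpos J hJ) hf.1.1.ht.deg hf.1.2.1⟩
      intro j
      have e1 : (W : 𝓞 F) ∣ f.coeff j - f₁.coeff j := Ideal.mem_span_singleton.1 (hf.1.1.one j)
      have e2 : f.coeff j - f₀.coeff j = (f.coeff j - f₁.coeff j) + (f₁.coeff j - f₀.coeff j) := by
        ring
      have e3 : (N₁ : 𝓞 F) ∣ f.coeff j - f₀.coeff j := by
        rw [e2]
        exact dvd_add ((Nat.cast_dvd_cast hNW).trans e1) (hf01 j)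
      have e4 : IsCoprime (N₁ : 𝓞 F) (N₂ : 𝓞 F) := by
        have := (Nat.isCoprime_iff_coprime.2 hcop12).map (Int.castRingHom (𝓞 F))
        simpa using this
      rw [hNnc]
      exact e4.mul_dvd e3 (hf.1.2.2 j)) (by
      intro J hJ x hx y hy hxy
      exact scale_inj (hJ0 J hJ) (by rw [hx.1.1.ht.deg, hy.1.1.ht.deg]) hxy)
  rw [hcard] at hcard1
  have hcard' : (G.ncard : ℝ) ≤ 2 ^ m * H.ncard := by exact_mod_cast hcard1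
  have hM' : ({f : (𝓞 F)[X] | Ht g B f}.ncard : ℝ) ≤
      (2 * Cp) ^ (2 * g) * (2 * Q) ^ D * (B₁ : ℝ) ^ D := by
    have e1 : ({f : (𝓞 F)[X] | Ht g B f}.ncard : ℝ) ≤ (2 * Cp) ^ (2 * g) * (B : ℝ) ^ D :=
      (ht_card hCp hpt g B hB1).2
    refine e1.trans ?_
    rw [mul_assoc, ← mul_pow]
    have e2 : (B : ℝ) ≤ 2 * Q * B₁ := by exact_mod_cast hBQ2
    gcongr
  calc c / 2 / (Pn * 2 ^ m * ((2 * Cp) ^ (2 * g) * (2 * Q) ^ D)) *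
        ({f : (𝓞 F)[X] | Ht g B f}.ncard : ℝ)
      ≤ c / 2 / (Pn * 2 ^ m * ((2 * Cp) ^ (2 * g) * (2 * Q) ^ D)) *
        ((2 * Cp) ^ (2 * g) * (2 * Q) ^ D * (B₁ : ℝ) ^ D) :=
        mul_le_mul_of_nonneg_left hM' (by positivity)
    _ = c / 2 * (B₁ : ℝ) ^ D / (Pn * 2 ^ m) := by
        field_simp
    _ ≤ (Pn * (G.ncard : ℝ)) / (Pn * 2 ^ m) := by gcongr
    _ ≤ (Pn * (2 ^ m * H.ncard)) / (Pn * 2 ^ m) := by gcongr
    _ = H.ncard := by field_simp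

end Pool.Agent.U376.RF
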